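import Mathlib

/-!
Bernoulli sequences and coordinatewise operations on them.
-/

open MeasureTheory Measure unitInterval Set
open scoped ENNReal

namespace Pool.Agent.Helper59.Pettis

/-- Bernoulli measure on `Bool`. -/
noncomputable def ber (p : I) : Measure Bool :=
  toNNReal p • dirac true + toNNReal (σ p) • dirac false

lemma ber_true (p : I) : ber p {true} = ENNReal.ofReal p := by
  unfold ber
  simp [unitInterval.toNNReal]
  exact (ENNReal.ofReal_eq_coe_nnreal p.2.1).symm

lemma ber_false (p : I) : ber p {false} = ENNReal.ofReal (1 - p) := by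
  unfold ber
  simp [unitInterval.toNNReal]
  exact (ENNReal.ofReal_eq_coe_nnreal (by linarith [p.2.2] : (0 : ℝ) ≤ 1 - p)).symm

lemma univ_bool : (univ : Set Bool) = {true} ∪ {false} := by
  ext b; cases b <;> simp

instance (p : I) : IsProbabilityMeasure (ber p) := by
  constructor
  rw [univ_bool, measure_union (by simp) (measurableSet_singleton _), ber_true, ber_false,
    ← ENNReal.ofReal_add p.2.1 (by linarith [p.2.2])]
  simp

/-- A probability measure on `Bool` is determined by the mass of `true`. -/
lemma eq_ber {m : Measure Bool} [IsProbabilityMeasure m] {p : I}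
    (h : m {true} = ENNReal.ofReal p) : m = ber p := by
  have h1 : m {false} = ENNReal.ofReal (1 - p) := by
    have h2 : m {true} + m {false} = 1 := by
      rw [← measure_union (by simp) (measurableSet_singleton _), ← univ_bool, measure_univ]
    have h3 : ber p {true} + ber p {false} = 1 := by
      rw [← measure_union (by simp) (measurableSet_singleton _), ← univ_bool, measure_univ]
    rw [ber_true, ber_false] at h3
    rw [h] at h2
    exact (ENNReal.add_right_inj ENNReal.ofReal_ne_top).1 (h2.trans h3.symm)
  apply Measure.ext_of_singleton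
  intro b
  cases b
  · rw [h1, ber_false]
  · rw [h, ber_true]

/-- Exists a parameter. -/
lemma exists_ber (m : Measure Bool) [IsProbabilityMeasure m] : ∃ p : I, m = ber p ∧
    ENNReal.ofReal p = m {true} := by
  have h1 : m {true} ≤ 1 := prob_le_one
  refine ⟨⟨(m {true}).toReal, ENNReal.toReal_nonneg, ?_⟩, ?_, ?_⟩
  · exact ENNReal.toReal_le_of_le_ofReal zero_le_one (by simpa using h1)
  · apply eq_ber
    rw [ENNReal.ofReal_toReal (ne_top_of_le_ne_top ENNReal.one_ne_top h1)]
  · rw [ENNReal.ofReal_toReal (ne_top_of_le_ne_top ENNReal.one_ne_top h1)]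

/-- Product of Bernoulli measures. -/
noncomputable def PP (p : I) : Measure (ℕ → Bool) := infinitePi (fun _ : ℕ => ber p)

instance (p : I) : IsProbabilityMeasure (PP p) := by unfold PP; infer_instance

/-- Exchange of the two levels of an iterated product. -/
lemma flip_lemma {J K X : Type*} [MeasurableSpace X] (μ : J → K → Measure X)
    [∀ j k, IsProbabilityMeasure (μ j k)] :
    (infinitePi fun j => infinitePi fun k => μ j k).map (fun x k j => x j k) =
      infinitePi fun k => infinitePi fun j => μ j k := by
  have h1 : (infinitePi fun j => infinitePi fun k => μ j k).map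
      (MeasurableEquiv.curry J K X).symm = infinitePi fun p : J × K => μ p.1 p.2 :=
    infinitePi_map_curry_symm μ
  have h2 := infinitePi_map_piCongrLeft (X := fun _ : K × J => X) (fun q : K × J => μ q.2 q.1)
    (Equiv.prodComm J K)
  have h3 := infinitePi_map_curry (fun k j => μ j k)
  have e2 : (fun i : J × K => μ ((Equiv.prodComm J K) i).2 ((Equiv.prodComm J K) i).1) =
    fun p : J × K => μ p.1 p.2 := rfl
  simp only [e2] at h2
  rw [← h3, ← h2, ← h1, Measure.map_map (by fun_prop) (by fun_prop),
    Measure.map_map (by fun_prop) (by fun_prop)]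
  congr 1

/-- Coordinatewise operations on independent Bernoulli sequences. -/
lemma cw {J : Type*} (p : J → I) (g : ℕ → (J → Bool) → Bool) (hg : ∀ i, Measurable (g i)) (r : I)
    (hr : ∀ i, (infinitePi fun j => ber (p j)).map (g i) = ber r) :
    (infinitePi fun j => PP (p j)).map (fun x i => g i (fun j => x j i)) = PP r := by
  have h1 := flip_lemma (fun (j : J) (_ : ℕ) => ber (p j))
  have h2 := infinitePi_map_pi (fun _ : ℕ => infinitePi fun j : J => ber (p j)) hg
  have e : (fun (x : J → ℕ → Bool) (i : ℕ) => g i (fun j => x j i)) =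
      (fun (y : ℕ → J → Bool) (i : ℕ) => g i (y i)) ∘ (fun x k j => x j k) := rfl
  unfold PP
  rw [e, ← Measure.map_map (by fun_prop) (by fun_prop), h1, h2]
  simp only [hr]

/-- Two-fold version. -/
lemma cw2 (p q : I) (g : ℕ → Bool → Bool → Bool) (r : I)
    (hr : ∀ i, ((ber p).prod (ber q)).map (fun z => g i z.1 z.2) = ber r) :
    ((PP p).prod (PP q)).map (fun z i => g i (z.1 i) (z.2 i)) = PP r := by
  let pp : Fin 2 → I := ![p, q]
  have hA : (infinitePi fun j => PP (pp j)).map (MeasurableEquiv.piFinTwo fun _ => ℕ → Bool) =
      (PP p).prod (PP q) := by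
    rw [infinitePi_eq_pi]
    exact (measurePreserving_piFinTwo (fun j => PP (pp j))).map_eq
  have hB : (infinitePi fun j => ber (pp j)).map (MeasurableEquiv.piFinTwo fun _ => Bool) =
      (ber p).prod (ber q) := by
    rw [infinitePi_eq_pi]
    exact (measurePreserving_piFinTwo (fun j => ber (pp j))).map_eq
  have hm : Measurable (fun z : (ℕ → Bool) × (ℕ → Bool) => fun i => g i (z.1 i) (z.2 i)) := by
    apply measurable_pi_lambda
    intro i
    have : Measurable (fun z : Bool × Bool => g i z.1 z.2) := measurable_of_countable _
    exact this.comp (by fun_prop : Measurable fun z : (ℕ → Bool) × (ℕ → Bool) => (z.1 i, z.2 i))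
  rw [← hA, Measure.map_map hm (by fun_prop)]
  have := cw pp (fun i y => g i (y 0) (y 1)) (fun i => by
    have : Measurable (fun z : Bool × Bool => g i z.1 z.2) := measurable_of_countable _
    exact this.comp (by fun_prop : Measurable fun y : Fin 2 → Bool => (y 0, y 1))) r (fun i => by
      rw [← hr i, ← hB, Measure.map_map (measurable_of_countable _) (by fun_prop)]
      rfl)
  exact this

end Pool.Agent.Helper59.Pettis
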