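import Mathlib

/-!
Subspace measures on nonmeasurable sets of full outer measure, and infinite products.
-/

open MeasureTheory Measure Set Filter
open scoped ENNReal

namespace Pool.Agent.Helper59.Pettis

variable {Z : Type*} [MeasurableSpace Z]

lemma sub_cara (μ : Measure Z) (Q : Set Z) : (Subtype.instMeasurableSpace : MeasurableSpace Q) ≤
    (OuterMeasure.comap (Subtype.val : Q → Z) μ.toOuterMeasure).caratheodory := by
  rintro s ⟨T, hT, rfl⟩
  rw [OuterMeasure.isCaratheodory_iff]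
  intro t
  simp only [OuterMeasure.comap_apply]
  show μ (Subtype.val '' t) = μ (Subtype.val '' (t ∩ Subtype.val ⁻¹' T)) +
    μ (Subtype.val '' (t \ Subtype.val ⁻¹' T))
  have e1 : Subtype.val '' (t ∩ Subtype.val ⁻¹' T) = (Subtype.val '' t) ∩ T := by
    ext x
    constructor
    · rintro ⟨y, ⟨h1, h2⟩, rfl⟩; exact ⟨⟨y, h1, rfl⟩, h2⟩
    · rintro ⟨⟨y, h1, rfl⟩, h2⟩; exact ⟨y, ⟨h1, h2⟩, rfl⟩
  have e2 : Subtype.val '' (t \ Subtype.val ⁻¹' T) = (Subtype.val '' t) \ T := by
    ext x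
    constructor
    · rintro ⟨y, ⟨h1, h2⟩, rfl⟩; exact ⟨⟨y, h1, rfl⟩, h2⟩
    · rintro ⟨⟨y, h1, rfl⟩, h2⟩; exact ⟨y, ⟨h1, h2⟩, rfl⟩
  rw [e1, e2]
  exact (measure_inter_add_sdiff _ hT).symm

/-- Subspace measure. -/
noncomputable def subM (μ : Measure Z) (Q : Set Z) : Measure Q :=
  (OuterMeasure.comap (Subtype.val : Q → Z) μ.toOuterMeasure).toMeasure (sub_cara μ Q)

lemma subM_apply (μ : Measure Z) (Q : Set Z) (A : Set Q) :
    subM μ Q A = μ (Subtype.val '' A) := by
  apply le_antisymm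
  · set T := toMeasurable μ (Subtype.val '' A) with hT
    have hTm : MeasurableSet T := measurableSet_toMeasurable _ _
    have h1 : A ⊆ Subtype.val ⁻¹' T := by
      intro a ha
      exact subset_toMeasurable _ _ ⟨a, ha, rfl⟩
    calc subM μ Q A ≤ subM μ Q (Subtype.val ⁻¹' T) := measure_mono h1
      _ = μ (Subtype.val '' ((Subtype.val : Q → Z) ⁻¹' T)) := by
          unfold subM
          rw [toMeasure_apply _ _ (measurable_subtype_coe hTm)]
          rfl
      _ ≤ μ T := measure_mono (by rintro _ ⟨x, hx, rfl⟩; exact hx)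
      _ = μ (Subtype.val '' A) := measure_toMeasurable _
  · exact le_toMeasure_apply _ _ _

lemma inter_full {μ : Measure Z} [IsProbabilityMeasure μ] {Q T : Set Z} (hQ : μ Q = 1)
    (hT : MeasurableSet T) : μ (T ∩ Q) = μ T := by
  apply le_antisymm (measure_mono Set.inter_subset_left)
  have h1 : μ Q = μ (Q ∩ T) + μ (Q \ T) := (measure_inter_add_sdiff _ hT).symm
  have h2 : μ T + μ Tᶜ = 1 := by
    rw [measure_add_measure_compl hT, measure_univ]
  have h3 : μ (Q \ T) ≤ μ Tᶜ := measure_mono (fun x hx => hx.2)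
  rw [Set.inter_comm T Q]
  have h4 : μ T + μ Tᶜ ≤ μ (Q ∩ T) + μ Tᶜ := by
    rw [h2, ← hQ, h1]
    gcongr
  exact (ENNReal.add_le_add_iff_right (measure_ne_top _ _)).1 h4

lemma subM_map {μ : Measure Z} [IsProbabilityMeasure μ] {Q : Set Z} (hQ : μ Q = 1) :
    (subM μ Q).map Subtype.val = μ := by
  ext T hT
  rw [Measure.map_apply measurable_subtype_coe hT, subM_apply, Subtype.image_preimage_coe,
    Set.inter_comm]
  exact inter_full hQ hT

lemma subM_prob {μ : Measure Z} {Q : Set Z} (hQ : μ Q = 1) :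
    IsProbabilityMeasure (subM μ Q) := by
  constructor
  rw [subM_apply, Set.image_univ, Subtype.range_coe, hQ]

lemma full_of_map {X : Type*} [MeasurableSpace X] {m : Measure X} {F : X → Z}
    (hF : Measurable F) {μ : Measure Z} [IsProbabilityMeasure μ] (h : m.map F = μ)
    {A : Set X} (hA : m A = 1) {Q : Set Z} (hQ : ∀ x ∈ A, F x ∈ Q) : μ Q = 1 := by
  apply le_antisymm prob_le_one
  rw [← hA, ← h]
  refine le_trans (measure_mono ?_) (le_map_apply hF.aemeasurable Q)
  intro x hx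
  exact hQ x hx

lemma full_pi {J : Type*} {Z : J → Type*} [∀ j, MeasurableSpace (Z j)] (μ : ∀ j, Measure (Z j))
    [∀ j, IsProbabilityMeasure (μ j)] {Q : ∀ j, Set (Z j)} (hQ : ∀ j, μ j (Q j) = 1) :
    infinitePi μ (univ.pi Q) = 1 := by
  have hp : ∀ j, IsProbabilityMeasure (subM (μ j) (Q j)) := fun j => subM_prob (hQ j)
  have h1 := infinitePi_map_pi (fun j => subM (μ j) (Q j)) (f := fun j => Subtype.val)
    (fun j => measurable_subtype_coe)
  simp only [subM_map (hQ _)] at h1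
  apply full_of_map (by fun_prop) h1 (A := univ) measure_univ
  intro x _ j _
  exact (x j).2

lemma full_inter_ae {μ : Measure Z} {Q : Set Z} (hQ : μ Q = 1) {P : Z → Prop}
    (hP : ∀ᵐ z ∂μ, P z) : μ {z | z ∈ Q ∧ P z} = 1 := by
  have h1 : μ {z | P z}ᶜ = 0 := hP
  have h2 := measure_inter_conull (s := Q) h1
  rw [hQ] at h2
  exact h2

lemma full_mono {μ : Measure Z} [IsProbabilityMeasure μ] {Q Q' : Set Z} (hQ : μ Q = 1)
    (h : Q ⊆ Q') : μ Q' = 1 :=
  le_antisymm prob_le_one (hQ ▸ measure_mono h)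

lemma full_freq {μ : Measure Z} {Q : Set Z} (hQ : μ Q = 1) : ∃ᶠ z in ae μ, z ∈ Q := by
  intro h
  have h1 : μ Q = 0 := measure_eq_zero_iff_ae_notMem.2 h
  rw [hQ] at h1
  exact one_ne_zero h1

end Pool.Agent.Helper59.Pettis
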