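import Pool.Agent.Helper59.Pettis.ZeroOne
import Pool.Agent.Helper59.Pettis.Sub

/-!
The purely nonmeasurable part vanishes off a set of full outer measure.
-/

open MeasureTheory Measure unitInterval Set Filter ProbabilityTheory
open scoped ENNReal Topology

namespace Pool.Agent.Helper59.Pettis

namespace FA

lemma tail_eq (τ : FA) (h0 : ∀ F : Set ℕ, F.Finite → τ.m F = 0) {a b : ℕ → Bool} {n : ℕ}
    (hab : ∀ i, n ≤ i → a i = b i) : τ.m (supp a)ᶜ = τ.m (supp b)ᶜ := by
  have hfin : (Set.Iio n).Finite := Set.finite_Iio n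
  have h1 : ∀ S : Set ℕ, τ.m S = τ.m (S \ Set.Iio n) := by
    intro S
    have := τ.split S (Set.Iio n)
    rw [h0 _ (hfin.subset Set.inter_subset_right), zero_add] at this
    exact this.symm
  rw [h1 (supp a)ᶜ, h1 (supp b)ᶜ]
  congr 1
  ext i
  simp only [supp, Set.mem_sdiff, Set.mem_compl_iff, Set.mem_ofPred_eq, Set.mem_Iio, not_lt]
  constructor
  · rintro ⟨h2, h3⟩; exact ⟨by rw [← hab i h3]; exact h2, h3⟩
  · rintro ⟨h2, h3⟩; exact ⟨by rw [hab i h3]; exact h2, h3⟩

/-- small parameters -/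
noncomputable def bet (l : ℕ) : I := ⟨(1 / 2) ^ (l + 2), by positivity,
  pow_le_one₀ (by norm_num) (by norm_num)⟩

lemma bet_val (l : ℕ) : (bet l : ℝ) = (1 / 2) ^ (l + 2) := rfl

lemma bet_sum : ∑' l, ENNReal.ofReal (bet l) = ENNReal.ofReal (1 / 2) := by
  have h2 : HasSum (fun l : ℕ => ((1 : ℝ) / 2) ^ (l + 2)) (1 / 2) := by
    have h3 := (hasSum_geometric_two).mul_right ((1 : ℝ) / 4)
    have e1 : (fun l : ℕ => ((1 : ℝ) / 2) ^ (l + 2)) = fun l => (1 / 2) ^ l * (1 / 4) := by
      funext l; rw [pow_add]; norm_num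
    have e2 : (1 : ℝ) / 2 = 2 * (1 / 4) := by norm_num
    rw [e1]
    rw [e2] at h3 ⊢
    exact h3
  rw [← h2.tsum_eq, ENNReal.ofReal_tsum_of_nonneg (fun l => by positivity) h2.summable]
  simp only [bet_val]

lemma exact_zero (τ : FA) (h0 : ∀ F : Set ℕ, F.Finite → τ.m F = 0)
    (hτ : ∀ ε > 0, ∃ n, 2 ^ n * (it τ n).m univ < ε) :
    PP hf {b | τ.m (supp b)ᶜ = 0} = 1 := by
  -- the sets with small defect
  set Q : ℕ → Set (ℕ → Bool) := fun l => {b | τ.m (supp b)ᶜ < 1 / ((l : ℝ) + 1)} with hQ
  have hQ1 : ∀ l, PP (bet l) (Q l) = 1 := by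
    intro l
    apply zero_one
    · intro a b n hab ha
      have ha' : τ.m (supp a)ᶜ < 1 / ((l : ℝ) + 1) := ha
      show τ.m (supp b)ᶜ < 1 / ((l : ℝ) + 1)
      rw [← tail_eq τ h0 hab]; exact ha'
    · exact freq_beta τ hτ (by rw [bet_val]; positivity) (by positivity)
  have hfull := full_pi (fun l => PP (bet l)) hQ1
  classical
  -- the union
  let g : (ℕ → Bool) → Bool := fun y => decide (∃ l, y l = true)
  have hg : Measurable g := by
    have h1 : MeasurableSet {y : ℕ → Bool | ∃ l, y l = true} := by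
      have e : {y : ℕ → Bool | ∃ l, y l = true} =
          ⋃ l, (fun y : ℕ → Bool => y l) ⁻¹' {true} := by
        ext y; simp
      rw [e]
      exact MeasurableSet.iUnion fun l => measurable_pi_apply l (measurableSet_singleton _)
    exact measurable_to_bool (by
      have e : g ⁻¹' {true} = {y : ℕ → Bool | ∃ l, y l = true} := by
        ext y; simp [g]
      rw [e]; exact h1)
  have : IsProbabilityMeasure ((infinitePi fun l => ber (bet l)).map g) :=
    isProbabilityMeasure_map hg.aemeasurable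
  obtain ⟨r, hr1, hr2⟩ := exists_ber ((infinitePi fun l => ber (bet l)).map g)
  have hcw := cw bet (fun _ => g) (fun _ => hg) r (fun _ => hr1)
  have hrle : (r : ℝ) ≤ 1 / 2 := by
    have h1 : ENNReal.ofReal r ≤ ENNReal.ofReal (1 / 2) := by
      rw [hr2, ← bet_sum, Measure.map_apply hg (measurableSet_singleton _)]
      have e : g ⁻¹' {true} = ⋃ l, (fun y : ℕ → Bool => y l) ⁻¹' {true} := by
        ext y; simp [g]
      rw [e]
      refine (measure_iUnion_le _).trans (ENNReal.tsum_le_tsum fun l => ?_)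
      have h2 := (measurePreserving_eval_infinitePi (fun l => ber (bet l)) l).measure_preimage
        (measurableSet_singleton true).nullMeasurableSet
      have h3 : (infinitePi fun l => ber (bet l)) ((fun y : ℕ → Bool => y l) ⁻¹' {true}) =
          ber (bet l) {true} := h2
      rw [h3, ber_true]
    exact (ENNReal.ofReal_le_ofReal_iff (by norm_num)).1 h1
  have hgm : Measurable (fun (x : ℕ → ℕ → Bool) (i : ℕ) => g (fun j => x j i)) := by
    apply measurable_pi_lambda
    intro i
    exact hg.comp (by fun_prop)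
  have hr : PP r {b | τ.m (supp b)ᶜ = 0} = 1 := by
    apply full_of_map hgm hcw hfull
    intro x hx
    show τ.m (supp (fun i => g (fun j => x j i)))ᶜ = 0
    apply le_antisymm _ (τ.nonneg _)
    apply le_of_forall_pos_le_add
    intro ε hε
    obtain ⟨l, hl⟩ := exists_nat_one_div_lt hε
    have h1 : τ.m (supp (x l))ᶜ < 1 / ((l : ℝ) + 1) := hx l (Set.mem_univ _)
    have h2 : τ.m (supp (fun i => g (fun j => x j i)))ᶜ ≤ τ.m (supp (x l))ᶜ := by
      apply τ.mono
      apply Set.compl_subset_compl.2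
      intro i hi
      have hi' : x l i = true := hi
      show g (fun j => x j i) = true
      simp only [g, decide_eq_true_eq]
      exact ⟨l, hi'⟩
    linarith
  -- enlarge to one half
  have h1r : (0 : ℝ) < 1 - r := by linarith
  let q' : I := ⟨1 - (1 / 2) / (1 - r), by
    rw [sub_nonneg, div_le_one h1r]; linarith, by
    have : 0 ≤ (1 : ℝ) / 2 / (1 - r) := by positivity
    linarith⟩
  have hβ' : σ (σ r * σ q') = hf := by
    apply Subtype.ext
    rw [coe_symm_eq]
    have e1 : ((σ r * σ q' : I) : ℝ) = (1 - r) * (1 - (1 - (1 / 2) / (1 - r))) := by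
      simp [q']
    rw [e1]
    unfold hf
    field_simp
    ring
  apply zero_one
  · intro a b n hab ha
    have ha' : τ.m (supp a)ᶜ = 0 := ha
    show τ.m (supp b)ᶜ = 0
    rw [← tail_eq τ h0 hab]; exact ha'
  · rw [← hβ']
    apply freq_or
    apply (full_freq hr).mono
    intro a ha
    have ha' : τ.m (supp a)ᶜ = 0 := ha
    apply Filter.Eventually.frequently
    refine Filter.Eventually.of_forall fun b => ?_
    show τ.m (supp _)ᶜ = 0
    rw [supp_or]
    have h5 : τ.m (supp a ∪ supp b)ᶜ ≤ τ.m (supp a)ᶜ :=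
      τ.mono (Set.compl_subset_compl.2 Set.subset_union_left)
    exact le_antisymm (by linarith) (τ.nonneg _)

end FA

end Pool.Agent.Helper59.Pettis
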