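import Pool.Agent.Helper59.Pettis.Ops

/-!
Finitely additive set functions on the natural numbers and the essential infimum operator.
-/

open MeasureTheory Measure unitInterval Set Filter
open scoped ENNReal Topology

namespace Pool.Agent.Helper59.Pettis

/-- Nonnegative finitely additive set functions. -/
structure FA where
  m : Set ℕ → ℝ
  nonneg : ∀ S, 0 ≤ m S
  add : ∀ S T, Disjoint S T → m (S ∪ T) = m S + m T

/-- the random set -/
def supp (a : ℕ → Bool) : Set ℕ := {i | a i = true}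

lemma supp_not (a : ℕ → Bool) : supp (fun i => !(a i)) = (supp a)ᶜ := by
  ext i; simp [supp]

lemma supp_and (a b : ℕ → Bool) : supp (fun i => a i && b i) = supp a ∩ supp b := by
  ext i; simp [supp]

lemma supp_or (a b : ℕ → Bool) : supp (fun i => a i || b i) = supp a ∪ supp b := by
  ext i; simp [supp]

namespace FA

variable (θ : FA)

lemma empty : θ.m ∅ = 0 := by
  have := θ.add ∅ ∅ (by simp)
  simp at this
  exact this

lemma split (S A : Set ℕ) : θ.m (S ∩ A) + θ.m (S \ A) = θ.m S := by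
  rw [← θ.add _ _ (Set.disjoint_left.2 fun x hx hx' => hx'.2 hx.2), Set.inter_union_sdiff]

lemma mono {S T : Set ℕ} (h : S ⊆ T) : θ.m S ≤ θ.m T := by
  have h1 := θ.split T S
  rw [Set.inter_eq_self_of_subset_right h] at h1
  linarith [θ.nonneg (T \ S)]

lemma inter_le (S A : Set ℕ) : θ.m (S ∩ A) ≤ θ.m S := θ.mono Set.inter_subset_left

/-- Essential infimum of `θ (S ∩ A)`, `A` a fair random set. -/
noncomputable def Rv (S : Set ℕ) : ℝ := sSup {t : ℝ | ∀ᵐ a ∂(PP hf), t ≤ θ.m (S ∩ supp a)}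

lemma bdd (S : Set ℕ) : BddAbove {t : ℝ | ∀ᵐ a ∂(PP hf), t ≤ θ.m (S ∩ supp a)} := by
  refine ⟨θ.m S, ?_⟩
  intro t ht
  have ht' : ∀ᵐ a ∂(PP hf), t ≤ θ.m (S ∩ supp a) := ht
  obtain ⟨a, ha⟩ := ht'.exists
  exact le_trans ha (θ.inter_le _ _)

lemma zero_mem (S : Set ℕ) : (0 : ℝ) ∈ {t : ℝ | ∀ᵐ a ∂(PP hf), t ≤ θ.m (S ∩ supp a)} := by
  have h : ∀ᵐ a ∂(PP hf), (0 : ℝ) ≤ θ.m (S ∩ supp a) :=
    Filter.Eventually.of_forall fun _ => θ.nonneg _
  exact h

lemma le_Rv {S : Set ℕ} {t : ℝ} (h : ∀ᵐ a ∂(PP hf), t ≤ θ.m (S ∩ supp a)) : t ≤ θ.Rv S :=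
  le_csSup (θ.bdd S) h

lemma Rv_nonneg (S : Set ℕ) : 0 ≤ θ.Rv S := θ.le_Rv (θ.zero_mem S)

lemma ae_Rv (S : Set ℕ) : ∀ᵐ a ∂(PP hf), θ.Rv S ≤ θ.m (S ∩ supp a) := by
  have h1 : ∀ n : ℕ, ∀ᵐ a ∂(PP hf), θ.Rv S - 1 / ((n : ℝ) + 1) ≤ θ.m (S ∩ supp a) := by
    intro n
    have hpos : (0 : ℝ) < 1 / ((n : ℝ) + 1) := by positivity
    obtain ⟨t, ht, ht2⟩ := exists_lt_of_lt_csSup ⟨0, θ.zero_mem S⟩
      (show θ.Rv S - 1 / ((n : ℝ) + 1) < θ.Rv S by linarith)
    filter_upwards [ht] with a ha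
    linarith
  filter_upwards [ae_all_iff.2 h1] with a ha
  apply le_of_forall_pos_le_add
  intro ε hε
  obtain ⟨n, hn⟩ := exists_nat_one_div_lt hε
  linarith [ha n]

lemma freq_Rv {S : Set ℕ} {t : ℝ} (h : θ.Rv S < t) : ∃ᶠ a in ae (PP hf), θ.m (S ∩ supp a) < t := by
  by_contra hcon
  rw [Filter.not_frequently] at hcon
  have h1 : t ≤ θ.Rv S := θ.le_Rv (by
    filter_upwards [hcon] with a ha
    exact not_lt.1 ha)
  linarith

lemma Rv_add (S T : Set ℕ) (hST : Disjoint S T) : θ.Rv (S ∪ T) = θ.Rv S + θ.Rv T := by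
  classical
  apply le_antisymm
  · apply le_of_forall_pos_le_add
    intro ε hε
    have h1 := θ.freq_Rv (show θ.Rv S < θ.Rv S + ε / 2 by linarith)
    have h2 := θ.freq_Rv (show θ.Rv T < θ.Rv T + ε / 2 by linarith)
    have h3 : ∃ᶠ c in ae (PP hf), θ.m ((S ∪ T) ∩ supp c) < θ.Rv S + θ.Rv T + ε := by
      apply freq_splice S
      apply h1.mono
      intro a ha
      apply h2.mono
      intro b hb
      have e : (S ∪ T) ∩ supp (fun i => if i ∈ S then a i else b i) =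
          (S ∩ supp a) ∪ (T ∩ supp b) := by
        ext i
        simp only [supp, Set.mem_inter_iff, Set.mem_union, Set.mem_ofPred_eq]
        by_cases hi : i ∈ S
        · have : i ∉ T := fun h => Set.disjoint_left.1 hST hi h
          simp [hi, this]
        · simp [hi]
      rw [e, θ.add _ _ (hST.mono Set.inter_subset_left Set.inter_subset_left)]
      linarith
    obtain ⟨c, hc1, hc2⟩ := (h3.and_eventually (θ.ae_Rv (S ∪ T))).exists
    linarith
  · apply θ.le_Rv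
    filter_upwards [θ.ae_Rv S, θ.ae_Rv T] with a h1 h2
    rw [Set.union_inter_distrib_right,
      θ.add _ _ (hST.mono Set.inter_subset_left Set.inter_subset_left)]
    linarith

/-- The operator. -/
noncomputable def R : FA := ⟨θ.Rv, θ.Rv_nonneg, θ.Rv_add⟩

lemma R_m (S : Set ℕ) : θ.R.m S = θ.Rv S := rfl

lemma Rv_le_half (S : Set ℕ) : θ.Rv S ≤ θ.m S / 2 := by
  have h1 := θ.ae_Rv S
  have h2 : ∀ᵐ a ∂(PP hf), θ.Rv S ≤ θ.m (S ∩ (supp a)ᶜ) := by
    have h3 : ∀ᵐ a ∂(PP (σ hf)), θ.Rv S ≤ θ.m (S ∩ supp a) := by rw [symm_hf]; exact h1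
    have h4 := ae_not h3
    simpa only [supp_not] using h4
  obtain ⟨a, ha1, ha2⟩ := (h1.and h2).exists
  have h5 := θ.split S (supp a)
  rw [Set.sdiff_eq] at h5
  linarith

variable {θ}

lemma Rv_le_of_le {θ1 θ2 : FA} {c δ : ℝ} (hc : 0 ≤ c) (h : ∀ S, θ1.m S ≤ c * θ2.m S + δ)
    (S : Set ℕ) : θ1.Rv S ≤ c * θ2.Rv S + δ := by
  apply le_of_forall_pos_le_add
  intro ε hε
  have hc1 : 0 < c + 1 := by linarith
  have h2 := θ2.freq_Rv (show θ2.Rv S < θ2.Rv S + ε / (c + 1) by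
    have : 0 < ε / (c + 1) := by positivity
    linarith)
  obtain ⟨a, ha1, ha2⟩ := (h2.and_eventually (θ1.ae_Rv S)).exists
  have h3 := h (S ∩ supp a)
  have h4 : c * θ2.m (S ∩ supp a) ≤ c * (θ2.Rv S + ε / (c + 1)) :=
    mul_le_mul_of_nonneg_left ha1.le hc
  have h5 : c * (ε / (c + 1)) ≤ ε := by
    rw [← mul_div_assoc, div_le_iff₀ hc1]
    nlinarith
  linarith

lemma Rv_superadd {θ1 θ2 θ3 : FA} {c : ℝ} (hc : 0 ≤ c)
    (h : ∀ S, θ1.m S + c * θ2.m S ≤ θ3.m S) (S : Set ℕ) :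
    θ1.Rv S + c * θ2.Rv S ≤ θ3.Rv S := by
  apply θ3.le_Rv
  filter_upwards [θ1.ae_Rv S, θ2.ae_Rv S] with a h1 h2
  have h3 := h (S ∩ supp a)
  have h4 : c * θ2.Rv S ≤ c * θ2.m (S ∩ supp a) := mul_le_mul_of_nonneg_left h2 hc
  linarith

/-- iterates -/
noncomputable def it (θ : FA) : ℕ → FA
  | 0 => θ
  | n + 1 => (it θ n).R

lemma it_succ (θ : FA) (n : ℕ) : it θ (n + 1) = (it θ n).R := rfl

/-- scaled iterates -/
noncomputable def sc (θ : FA) (n : ℕ) (S : Set ℕ) : ℝ := 2 ^ n * (it θ n).m S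

lemma sc_nonneg (θ : FA) (n : ℕ) (S : Set ℕ) : 0 ≤ sc θ n S :=
  mul_nonneg (by positivity) ((it θ n).nonneg S)

lemma sc_anti (θ : FA) (S : Set ℕ) : Antitone fun n => sc θ n S := by
  apply antitone_nat_of_succ_le
  intro n
  unfold sc
  rw [it_succ, R_m, pow_succ]
  have h1 := (it θ n).Rv_le_half S
  have h2 : (0 : ℝ) < 2 ^ n := by positivity
  nlinarith

lemma sc_tendsto (θ : FA) (S : Set ℕ) :
    Tendsto (fun n => sc θ n S) atTop (𝓝 (⨅ n, sc θ n S)) :=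
  tendsto_atTop_ciInf (sc_anti θ S) ⟨0, by rintro _ ⟨n, rfl⟩; exact sc_nonneg θ n S⟩

/-- The measurable part. -/
noncomputable def kp (θ : FA) : FA where
  m S := ⨅ n, sc θ n S
  nonneg S := le_ciInf fun n => sc_nonneg θ n S
  add S T hST := by
    have h1 := (sc_tendsto θ S).add (sc_tendsto θ T)
    have h2 := sc_tendsto θ (S ∪ T)
    refine tendsto_nhds_unique h2 (h1.congr fun n => ?_)
    unfold sc
    rw [(it θ n).add S T hST]
    ring

lemma kp_le_sc (θ : FA) (n : ℕ) (S : Set ℕ) : (kp θ).m S ≤ sc θ n S :=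
  ciInf_le ⟨0, by rintro _ ⟨n, rfl⟩; exact sc_nonneg θ n S⟩ n

lemma kp_le (θ : FA) (S : Set ℕ) : (kp θ).m S ≤ θ.m S := by
  have := kp_le_sc θ 0 S
  simpa [sc, it] using this

/-- The purely nonmeasurable part. -/
noncomputable def tp (θ : FA) : FA where
  m S := θ.m S - (kp θ).m S
  nonneg S := by linarith [kp_le θ S]
  add S T hST := by rw [θ.add S T hST, (kp θ).add S T hST]; ring

lemma kp_add_tp (θ : FA) (S : Set ℕ) : (kp θ).m S + (tp θ).m S = θ.m S := by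
  show (kp θ).m S + (θ.m S - (kp θ).m S) = θ.m S
  ring

/-- The defect is monotone in the set. -/
lemma sc_sub_le (θ : FA) (n : ℕ) (S : Set ℕ) :
    sc θ n S - (kp θ).m S ≤ sc θ n univ - (kp θ).m univ := by
  have h1 := (it θ n).split univ S
  have h2 := (kp θ).split univ S
  rw [Set.univ_inter] at h1 h2
  have h3 := kp_le_sc θ n (univ \ S)
  have h4 : sc θ n univ = sc θ n S + sc θ n (univ \ S) := by
    unfold sc; rw [← h1]; ring
  linarith

lemma defect_tendsto (θ : FA) :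
    Tendsto (fun n => sc θ n univ - (kp θ).m univ) atTop (𝓝 0) := by
  have h1 := (sc_tendsto θ univ).sub_const ((kp θ).m univ)
  have h2 : (⨅ n, sc θ n univ) - (kp θ).m univ = 0 := sub_self _
  rwa [h2] at h1

lemma Rv_kp_ge (θ : FA) (S : Set ℕ) : (kp θ).m S / 2 ≤ (kp θ).Rv S := by
  have h1 : ∀ n, (kp θ).m S ≤ 2 * ((kp θ).Rv S + (sc θ n univ - (kp θ).m univ)) := by
    intro n
    set δ := sc θ n univ - (kp θ).m univ
    have hpow : (0 : ℝ) < 2 ^ n := by positivity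
    have h2 : ∀ S, (it θ n).m S ≤ (1 / 2 ^ n) * (kp θ).m S + (1 / 2 ^ n) * δ := by
      intro S
      have h3 := sc_sub_le θ n S
      have h4 : (it θ n).m S = (1 / 2 ^ n) * sc θ n S := by unfold sc; field_simp
      rw [h4, ← mul_add]
      apply mul_le_mul_of_nonneg_left _ (by positivity)
      linarith
    have h5 := Rv_le_of_le (by positivity) h2 S
    have h6 := kp_le_sc θ (n + 1) S
    unfold sc at h6
    rw [it_succ, R_m] at h6
    have h7 : (2 : ℝ) ^ (n + 1) * (it θ n).Rv S ≤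
        2 ^ (n + 1) * ((1 / 2 ^ n) * (kp θ).Rv S + (1 / 2 ^ n) * δ) :=
      mul_le_mul_of_nonneg_left h5 (by positivity)
    have h8 : (2 : ℝ) ^ (n + 1) * ((1 / 2 ^ n) * (kp θ).Rv S + (1 / 2 ^ n) * δ) =
        2 * ((kp θ).Rv S + δ) := by
      rw [pow_succ]; field_simp
    linarith
  have h2 := (((defect_tendsto θ).const_add ((kp θ).Rv S)).const_mul 2)
  have h3 := ge_of_tendsto' h2 h1
  linarith

/-- The measurable part is halved by almost every set. -/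
lemma kp_ae (θ : FA) (S : Set ℕ) :
    ∀ᵐ a ∂(PP hf), (kp θ).m (S ∩ supp a) = (kp θ).m S / 2 := by
  have h0 := (kp θ).ae_Rv S
  have hge := Rv_kp_ge θ S
  have h1 : ∀ᵐ a ∂(PP hf), (kp θ).m S / 2 ≤ (kp θ).m (S ∩ supp a) := by
    filter_upwards [h0] with a ha
    linarith
  have h2 : ∀ᵐ a ∂(PP hf), (kp θ).m S / 2 ≤ (kp θ).m (S ∩ (supp a)ᶜ) := by
    have h3 : ∀ᵐ a ∂(PP (σ hf)), (kp θ).m S / 2 ≤ (kp θ).m (S ∩ supp a) := by
      rw [symm_hf]; exact h1
    have h4 := ae_not h3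
    simpa only [supp_not] using h4
  filter_upwards [h1, h2] with a ha1 ha2
  have h5 := (kp θ).split S (supp a)
  rw [Set.sdiff_eq] at h5
  linarith

lemma it_tp_le (θ : FA) (n : ℕ) : ∀ S, (it (tp θ) n).m S + (1 / 2 ^ n) * (kp θ).m S ≤
    (it θ n).m S := by
  induction n with
  | zero =>
    intro S
    have := kp_add_tp θ S
    simp only [it, pow_zero, div_one, one_mul]
    linarith
  | succ n ih =>
    intro S
    rw [it_succ, it_succ, R_m, R_m]
    have h1 := Rv_superadd (by positivity : (0 : ℝ) ≤ 1 / 2 ^ n) ih S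
    have h2 := Rv_kp_ge θ S
    have h3 : (1 / 2 ^ n) * ((kp θ).m S / 2) ≤ (1 / 2 ^ n) * (kp θ).Rv S :=
      mul_le_mul_of_nonneg_left h2 (by positivity)
    have h4 : (1 / 2 ^ n) * ((kp θ).m S / 2) = (1 / 2 ^ (n + 1)) * (kp θ).m S := by
      rw [pow_succ]; field_simp
    linarith

lemma tp_small (θ : FA) {ε : ℝ} (hε : 0 < ε) : ∃ n, 2 ^ n * (it (tp θ) n).m univ < ε := by
  obtain ⟨n, hn⟩ := ((defect_tendsto θ).eventually_lt_const hε).exists
  refine ⟨n, ?_⟩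
  have h1 := it_tp_le θ n univ
  have h2 : (0 : ℝ) < 2 ^ n := by positivity
  have h3 : 2 ^ n * ((it (tp θ) n).m univ + (1 / 2 ^ n) * (kp θ).m univ) ≤
      2 ^ n * (it θ n).m univ := mul_le_mul_of_nonneg_left h1 h2.le
  have h4 : 2 ^ n * ((it (tp θ) n).m univ + (1 / 2 ^ n) * (kp θ).m univ) =
      2 ^ n * (it (tp θ) n).m univ + (kp θ).m univ := by field_simp
  unfold sc at hn
  linarith

end FA

end Pool.Agent.Helper59.Pettis
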