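import Pool.Agent.Helper59.Pettis.Exact

/-!
The Fremlin-Talagrand lemma.
-/

open MeasureTheory Measure unitInterval Set Filter ProbabilityTheory
open scoped ENNReal Topology

namespace Pool.Agent.Helper59.Pettis

/-- bounded finitely additive set functions vanishing on finite sets -/
structure SFA where
  m : Set ℕ → ℝ
  add : ∀ S T, Disjoint S T → m (S ∪ T) = m S + m T
  C : ℝ
  bound : ∀ S, |m S| ≤ C
  fin : ∀ S : Set ℕ, S.Finite → m S = 0

namespace SFA

variable (ν : SFA)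

lemma C_nonneg : 0 ≤ ν.C := (abs_nonneg _).trans (ν.bound ∅)

lemma empty : ν.m ∅ = 0 := ν.fin ∅ Set.finite_empty

lemma split (S A : Set ℕ) : ν.m (S ∩ A) + ν.m (S \ A) = ν.m S := by
  rw [← ν.add _ _ (Set.disjoint_left.2 fun x hx hx' => hx'.2 hx.2), Set.inter_union_sdiff]

/-- negative -/
def neg : SFA where
  m S := - ν.m S
  add S T h := by rw [ν.add S T h]; ring
  C := ν.C
  bound S := by rw [abs_neg]; exact ν.bound S
  fin S h := by rw [ν.fin S h]; simp

/-- the upper variation as a function -/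
noncomputable def posF (S : Set ℕ) : ℝ := sSup {t : ℝ | ∃ T, T ⊆ S ∧ t = ν.m T}

lemma posF_bdd (S : Set ℕ) : BddAbove {t : ℝ | ∃ T, T ⊆ S ∧ t = ν.m T} := by
  refine ⟨ν.C, ?_⟩
  rintro _ ⟨T, _, rfl⟩
  exact (le_abs_self _).trans (ν.bound T)

lemma posF_ne (S : Set ℕ) : {t : ℝ | ∃ T, T ⊆ S ∧ t = ν.m T}.Nonempty :=
  ⟨ν.m ∅, ∅, Set.empty_subset _, rfl⟩

lemma le_posF {S T : Set ℕ} (h : T ⊆ S) : ν.m T ≤ ν.posF S :=
  le_csSup (ν.posF_bdd S) ⟨T, h, rfl⟩

lemma posF_le (S : Set ℕ) : ν.posF S ≤ ν.C := by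
  apply csSup_le (ν.posF_ne S)
  rintro _ ⟨T, _, rfl⟩
  exact (le_abs_self _).trans (ν.bound T)

lemma posF_nonneg (S : Set ℕ) : 0 ≤ ν.posF S := by
  rw [← ν.empty]; exact ν.le_posF (Set.empty_subset _)

lemma posF_fin {S : Set ℕ} (h : S.Finite) : ν.posF S = 0 := by
  apply le_antisymm _ (ν.posF_nonneg S)
  apply csSup_le (ν.posF_ne S)
  rintro _ ⟨T, hT, rfl⟩
  rw [ν.fin T (h.subset hT)]

lemma posF_add (S T : Set ℕ) (h : Disjoint S T) : ν.posF (S ∪ T) = ν.posF S + ν.posF T := by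
  apply le_antisymm
  · apply csSup_le (ν.posF_ne _)
    rintro _ ⟨A, hA, rfl⟩
    have e : A = (A ∩ S) ∪ (A ∩ T) := by
      rw [← Set.inter_union_distrib_left]
      exact (Set.inter_eq_self_of_subset_left hA).symm
    rw [e, ν.add _ _ (h.mono Set.inter_subset_right Set.inter_subset_right)]
    exact add_le_add (ν.le_posF Set.inter_subset_right) (ν.le_posF Set.inter_subset_right)
  · have h1 : ∀ A, A ⊆ S → ν.m A + ν.posF T ≤ ν.posF (S ∪ T) := by
      intro A hA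
      have h2 : ν.posF T ≤ ν.posF (S ∪ T) - ν.m A := by
        apply csSup_le (ν.posF_ne _)
        rintro _ ⟨B, hB, rfl⟩
        have := ν.le_posF (S := S ∪ T) (T := A ∪ B) (Set.union_subset_union hA hB)
        rw [ν.add A B (h.mono hA hB)] at this
        linarith
      linarith
    have h3 : ν.posF S ≤ ν.posF (S ∪ T) - ν.posF T := by
      apply csSup_le (ν.posF_ne _)
      rintro _ ⟨A, hA, rfl⟩
      linarith [h1 A hA]
    linarith

/-- the upper variation -/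
noncomputable def pos : FA := ⟨ν.posF, ν.posF_nonneg, ν.posF_add⟩

end SFA

/-- the weights -/
noncomputable def wt (ν : ℕ → SFA) (n : ℕ) : ℝ := (1 / 2) ^ n / (1 + (ν n).C)

lemma wt_pos (ν : ℕ → SFA) (n : ℕ) : 0 < wt ν n := by
  have := (ν n).C_nonneg
  unfold wt
  positivity

lemma dom_summable (ν : ℕ → SFA) (S : Set ℕ) :
    Summable fun n => wt ν n * ((ν n).posF S + (ν n).neg.posF S) := by
  have hC := fun n => (ν n).C_nonneg
  apply Summable.of_nonneg_of_le (f := fun n : ℕ => 2 * (1 / 2 : ℝ) ^ n)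
  · intro n
    exact mul_nonneg (wt_pos ν n).le (add_nonneg ((ν n).posF_nonneg S) ((ν n).neg.posF_nonneg S))
  · intro n
    have h1 := (ν n).posF_le S
    have h2 := (ν n).neg.posF_le S
    have h3 : (ν n).neg.C = (ν n).C := rfl
    rw [h3] at h2
    have h4 : wt ν n * ((ν n).posF S + (ν n).neg.posF S) ≤ wt ν n * (2 * (1 + (ν n).C)) := by
      apply mul_le_mul_of_nonneg_left _ (wt_pos ν n).le
      linarith
    have h5 : wt ν n * (2 * (1 + (ν n).C)) = 2 * (1 / 2 : ℝ) ^ n := by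
      unfold wt
      have : (1 + (ν n).C) ≠ 0 := by linarith [hC n]
      field_simp
    linarith
  · exact (summable_geometric_two).mul_left 2

/-- A dominating nonnegative set function. -/
noncomputable def dom (ν : ℕ → SFA) : FA where
  m S := ∑' n, wt ν n * ((ν n).posF S + (ν n).neg.posF S)
  nonneg S := tsum_nonneg fun n =>
    mul_nonneg (wt_pos ν n).le (add_nonneg ((ν n).posF_nonneg S) ((ν n).neg.posF_nonneg S))
  add S T h := by
    rw [← (dom_summable ν S).tsum_add (dom_summable ν T)]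
    congr 1
    funext n
    rw [(ν n).posF_add S T h, (ν n).neg.posF_add S T h]
    ring

lemma dom_fin (ν : ℕ → SFA) {S : Set ℕ} (h : S.Finite) : (dom ν).m S = 0 := by
  show ∑' n, wt ν n * ((ν n).posF S + (ν n).neg.posF S) = 0
  have : (fun n => wt ν n * ((ν n).posF S + (ν n).neg.posF S)) = fun _ => 0 := by
    funext n
    rw [(ν n).posF_fin h, (ν n).neg.posF_fin h]
    simp
  rw [this]
  exact tsum_zero

lemma dom_bound (ν : ℕ → SFA) (n : ℕ) (S : Set ℕ) :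
    |(ν n).m S| ≤ (wt ν n)⁻¹ * (dom ν).m S := by
  have h1 : wt ν n * ((ν n).posF S + (ν n).neg.posF S) ≤ (dom ν).m S :=
    (dom_summable ν S).le_tsum n (fun k _ =>
      mul_nonneg (wt_pos ν k).le (add_nonneg ((ν k).posF_nonneg S) ((ν k).neg.posF_nonneg S)))
  have h2 : |(ν n).m S| ≤ (ν n).posF S + (ν n).neg.posF S := by
    have ha := (ν n).le_posF (le_refl S)
    have hb : -(ν n).m S ≤ (ν n).neg.posF S := (ν n).neg.le_posF (le_refl S)
    have hc := (ν n).posF_nonneg S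
    have hd := (ν n).neg.posF_nonneg S
    rw [abs_le]
    constructor <;> linarith
  rw [inv_mul_eq_div, le_div_iff₀ (wt_pos ν n)]
  have h3 := mul_le_mul_of_nonneg_left h2 (wt_pos ν n).le
  linarith

/-! ### Approximation by simple densities -/

lemma alg {x y s t C : ℝ} (hs : 0 ≤ s) (ht : 0 ≤ t) (hx : |x| ≤ C * s) (hy : |y| ≤ C * t) :
    (x + y) ^ 2 / (s + t) + (x - (x + y) / (s + t) * s) ^ 2 / s ≤ x ^ 2 / s + y ^ 2 / t := by
  rcases hs.eq_or_lt with rfl | hs'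
  · have : x = 0 := by
      rw [mul_zero] at hx
      exact abs_eq_zero.1 (le_antisymm hx (abs_nonneg _))
    subst this
    simp
  · rcases ht.eq_or_lt with rfl | ht'
    · have : y = 0 := by
        rw [mul_zero] at hy
        exact abs_eq_zero.1 (le_antisymm hy (abs_nonneg _))
      subst this
      have e : x - (x + 0) / (s + 0) * s = 0 := by
        simp only [add_zero]
        field_simp
        ring
      rw [e]
      simp
    · have h1 : x ^ 2 / s + y ^ 2 / t - (x + y) ^ 2 / (s + t) -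
          (x - (x + y) / (s + t) * s) ^ 2 / s = (y - (x + y) / (s + t) * t) ^ 2 / t := by
        field_simp
        ring
      have h2 : 0 ≤ (y - (x + y) / (s + t) * t) ^ 2 / t := by positivity
      linarith

section approx

variable (ν : SFA) (θ : FA) {C : ℝ}

/-- energy -/
noncomputable def En {ι : Type*} [Fintype ι] (c : ℕ → ι) : ℝ :=
  ∑ j, (ν.m (c ⁻¹' {j})) ^ 2 / θ.m (c ⁻¹' {j})

lemma sum_fib {ι : Type*} [Fintype ι] (c : ℕ → ι) (A : Set ℕ) :
    ∑ j, θ.m (c ⁻¹' {j} ∩ A) = θ.m A := by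
  classical
  have h1 : ∀ s : Finset ι, ∑ j ∈ s, θ.m (c ⁻¹' {j} ∩ A) = θ.m (c ⁻¹' s ∩ A) := by
    intro s
    induction s using Finset.induction_on with
    | empty => simp [θ.empty]
    | insert a s ha ih =>
      rw [Finset.sum_insert ha, ih, ← θ.add]
      · congr 1
        ext i
        simp only [Set.mem_union, Set.mem_inter_iff, Set.mem_preimage, Set.mem_singleton_iff,
          Finset.coe_insert, Set.mem_insert_iff]
        tauto
      · rw [Set.disjoint_left]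
        rintro i ⟨h1, _⟩ ⟨h2, _⟩
        have h1' : c i = a := h1
        have h2' : c i ∈ s := by simpa using h2
        rw [h1'] at h2'
        exact ha h2'
  have h2 := h1 Finset.univ
  rw [h2]
  simp

lemma sum_fib_s {ι : Type*} [Fintype ι] (c : ℕ → ι) (A : Set ℕ) :
    ∑ j, ν.m (c ⁻¹' {j} ∩ A) = ν.m A := by
  classical
  have h1 : ∀ s : Finset ι, ∑ j ∈ s, ν.m (c ⁻¹' {j} ∩ A) = ν.m (c ⁻¹' s ∩ A) := by
    intro s
    induction s using Finset.induction_on with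
    | empty => simp [ν.empty]
    | insert a s ha ih =>
      rw [Finset.sum_insert ha, ih, ← ν.add]
      · congr 1
        ext i
        simp only [Set.mem_union, Set.mem_inter_iff, Set.mem_preimage, Set.mem_singleton_iff,
          Finset.coe_insert, Set.mem_insert_iff]
        tauto
      · rw [Set.disjoint_left]
        rintro i ⟨h1, _⟩ ⟨h2, _⟩
        have h1' : c i = a := h1
        have h2' : c i ∈ s := by simpa using h2
        rw [h1'] at h2'
        exact ha h2'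
  have h2 := h1 Finset.univ
  rw [h2]
  simp

lemma En_le (hC : 0 ≤ C) (hb : ∀ S, |ν.m S| ≤ C * θ.m S) {ι : Type*} [Fintype ι] (c : ℕ → ι) :
    En ν θ c ≤ C ^ 2 * θ.m univ := by
  unfold En
  rw [← sum_fib θ c univ, Finset.mul_sum]
  apply Finset.sum_le_sum
  intro j _
  rw [Set.inter_univ]
  rcases (θ.nonneg (c ⁻¹' {j})).eq_or_lt with h | h
  · rw [← h]; simp
  · rw [div_le_iff₀ h]
    have h1 := hb (c ⁻¹' {j})
    have h2 : (ν.m (c ⁻¹' {j})) ^ 2 ≤ (C * θ.m (c ⁻¹' {j})) ^ 2 := by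
      rw [← sq_abs]
      exact pow_le_pow_left₀ (abs_nonneg _) h1 2
    nlinarith

lemma En_equiv {ι κ : Type*} [Fintype ι] [Fintype κ] (e : ι ≃ κ) (c : ℕ → ι) :
    En ν θ (e ∘ c) = En ν θ c := by
  unfold En
  rw [← Equiv.sum_comp e]
  apply Finset.sum_congr rfl
  intro j _
  have : (e ∘ c) ⁻¹' {e j} = c ⁻¹' {j} := by
    ext i; simp
  rw [this]

lemma approx (hC : 0 ≤ C) (hb : ∀ S, |ν.m S| ≤ C * θ.m S) {ε : ℝ} (hε : 0 < ε) :
    ∃ (k : ℕ) (c : ℕ → Fin k) (α : Fin k → ℝ),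
      ∀ A : Set ℕ, |ν.m A - ∑ j, α j * θ.m (c ⁻¹' {j} ∩ A)| ≤ ε := by
  classical
  set V := {t : ℝ | ∃ (k : ℕ) (c : ℕ → Fin k), t = En ν θ c} with hV
  have hVb : BddAbove V := by
    refine ⟨C ^ 2 * θ.m univ, ?_⟩
    rintro _ ⟨k, c, rfl⟩
    exact En_le ν θ hC hb c
  have hVn : V.Nonempty := ⟨_, 1, fun _ => 0, rfl⟩
  have hθ : 0 < 1 + θ.m univ := by linarith [θ.nonneg univ]
  set lam : ℝ := ε / (1 + θ.m univ) with hlam
  have hlpos : 0 < lam := by positivity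
  obtain ⟨_, ⟨k, c, rfl⟩, hc⟩ := exists_lt_of_lt_csSup hVn
    (show sSup V - lam * ε < sSup V by nlinarith)
  refine ⟨k, c, fun j => ν.m (c ⁻¹' {j}) / θ.m (c ⁻¹' {j}), ?_⟩
  intro A
  -- the refined partition
  let c' : ℕ → Fin k × Fin 2 := fun i => (c i, if i ∈ A then 0 else 1)
  have h1 : En ν θ c' ≤ sSup V := by
    rw [← En_equiv ν θ finProdFinEquiv c']
    exact le_csSup hVb ⟨_, _, rfl⟩
  have hA0 : ∀ j, c' ⁻¹' {(j, 0)} = c ⁻¹' {j} ∩ A := by
    intro j; ext i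
    simp only [c', Set.mem_preimage, Set.mem_singleton_iff, Prod.mk.injEq, Set.mem_inter_iff]
    by_cases hi : i ∈ A <;> simp [hi]
  have hA1 : ∀ j, c' ⁻¹' {(j, 1)} = c ⁻¹' {j} \ A := by
    intro j; ext i
    simp only [c', Set.mem_preimage, Set.mem_singleton_iff, Prod.mk.injEq, Set.mem_sdiff]
    by_cases hi : i ∈ A <;> simp [hi]
  have h2 : En ν θ c' = ∑ j, ((ν.m (c ⁻¹' {j} ∩ A)) ^ 2 / θ.m (c ⁻¹' {j} ∩ A) +
      (ν.m (c ⁻¹' {j} \ A)) ^ 2 / θ.m (c ⁻¹' {j} \ A)) := by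
    unfold En
    rw [Fintype.sum_prod_type]
    apply Finset.sum_congr rfl
    intro j _
    rw [Fin.sum_univ_two, hA0, hA1]
  set u : Fin k → ℝ := fun j => ν.m (c ⁻¹' {j} ∩ A) -
    ν.m (c ⁻¹' {j}) / θ.m (c ⁻¹' {j}) * θ.m (c ⁻¹' {j} ∩ A) with hu
  have h3 : En ν θ c + ∑ j, (u j) ^ 2 / θ.m (c ⁻¹' {j} ∩ A) ≤ En ν θ c' := by
    rw [h2]
    unfold En
    rw [← Finset.sum_add_distrib]
    apply Finset.sum_le_sum
    intro j _
    have := alg (θ.nonneg (c ⁻¹' {j} ∩ A)) (θ.nonneg (c ⁻¹' {j} \ A)) (hb _) (hb _)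
    rw [ν.split, θ.split] at this
    exact this
  have h4 : ∑ j, (u j) ^ 2 / θ.m (c ⁻¹' {j} ∩ A) ≤ lam * ε := by linarith
  have h5 : ∀ j, |u j| ≤ (u j) ^ 2 / θ.m (c ⁻¹' {j} ∩ A) / (2 * lam) +
      lam * θ.m (c ⁻¹' {j} ∩ A) / 2 := by
    intro j
    rcases (θ.nonneg (c ⁻¹' {j} ∩ A)).eq_or_lt with h | h
    · have h6 : ν.m (c ⁻¹' {j} ∩ A) = 0 := by
        have := hb (c ⁻¹' {j} ∩ A)
        rw [← h, mul_zero] at this
        exact abs_eq_zero.1 (le_antisymm this (abs_nonneg _))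
      have h7 : u j = 0 := by
        simp only [hu]
        rw [h6, ← h]; simp
      rw [h7, ← h]; simp
    · set s := θ.m (c ⁻¹' {j} ∩ A)
      have h8 : 0 ≤ (|u j| - lam * s) ^ 2 := sq_nonneg _
      have h9 : |u j| ^ 2 = (u j) ^ 2 := sq_abs _
      rw [div_div, div_add_div _ _ (by positivity) (by norm_num), le_div_iff₀ (by positivity)]
      nlinarith
  have h6 : ν.m A - ∑ j, ν.m (c ⁻¹' {j}) / θ.m (c ⁻¹' {j}) * θ.m (c ⁻¹' {j} ∩ A) =
      ∑ j, u j := by
    rw [← sum_fib_s ν c A, ← Finset.sum_sub_distrib]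
  rw [h6]
  have h7 : ∑ j, θ.m (c ⁻¹' {j} ∩ A) ≤ 1 + θ.m univ := by
    rw [sum_fib]
    linarith [θ.mono (Set.subset_univ A)]
  calc |∑ j, u j| ≤ ∑ j, |u j| := Finset.abs_sum_le_sum_abs _ _
    _ ≤ ∑ j, ((u j) ^ 2 / θ.m (c ⁻¹' {j} ∩ A) / (2 * lam) +
      lam * θ.m (c ⁻¹' {j} ∩ A) / 2) := Finset.sum_le_sum fun j _ => h5 j
    _ = (∑ j, (u j) ^ 2 / θ.m (c ⁻¹' {j} ∩ A)) / (2 * lam) +
      lam * (∑ j, θ.m (c ⁻¹' {j} ∩ A)) / 2 := by
        rw [Finset.sum_add_distrib, Finset.sum_div, Finset.mul_sum, Finset.sum_div]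
    _ ≤ lam * ε / (2 * lam) + lam * (1 + θ.m univ) / 2 := by
        gcongr
    _ = ε := by
        rw [hlam]; field_simp; ring

end approx

/-! ### The lemma -/

/-- The Fremlin-Talagrand lemma: countably many bounded finitely additive set functions that
vanish on finite sets are simultaneously constant on a set of full outer measure. -/
theorem fremlin_talagrand (ν : ℕ → SFA) :
    ∃ v : ℕ → ℝ, PP hf {a | ∀ n, (ν n).m (supp a) = v n} = 1 := by
  set θ := dom ν with hθ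
  set τ := FA.tp θ with hτ
  have hτ0 : ∀ F : Set ℕ, F.Finite → τ.m F = 0 := by
    intro F hF
    apply le_antisymm _ (τ.nonneg F)
    have h1 := FA.kp_add_tp θ F
    rw [dom_fin ν hF] at h1
    have h2 := (FA.kp θ).nonneg F
    linarith
  have h1 := FA.exact_zero τ hτ0 (fun ε hε => FA.tp_small θ hε)
  -- the approximations
  have happ : ∀ n p : ℕ, ∃ (k : ℕ) (c : ℕ → Fin k) (α : Fin k → ℝ), ∀ A : Set ℕ,
      |(ν n).m A - ∑ j, α j * θ.m (c ⁻¹' {j} ∩ A)| ≤ 1 / ((p : ℝ) + 1) := fun n p =>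
    approx (ν n) θ (inv_nonneg.2 (wt_pos ν n).le) (dom_bound ν n) (by positivity)
  choose k c α hα using happ
  have hae : ∀ᵐ a ∂(PP hf), ∀ n p : ℕ, ∀ j : Fin (k n p),
      (FA.kp θ).m ((c n p) ⁻¹' {j} ∩ supp a) = (FA.kp θ).m ((c n p) ⁻¹' {j}) / 2 := by
    rw [ae_all_iff]; intro n
    rw [ae_all_iff]; intro p
    rw [ae_all_iff]; intro j
    exact FA.kp_ae θ _
  have h2 := full_inter_ae h1 hae
  set G := {a : ℕ → Bool | a ∈ {b : ℕ → Bool | τ.m (supp b)ᶜ = 0} ∧ ∀ n p : ℕ, ∀ j : Fin (k n p),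
      (FA.kp θ).m ((c n p) ⁻¹' {j} ∩ supp a) = (FA.kp θ).m ((c n p) ⁻¹' {j}) / 2} with hG
  have hne : G.Nonempty := by
    by_contra hcon
    rw [Set.not_nonempty_iff_eq_empty] at hcon
    rw [hcon] at h2
    simp at h2
  have key : ∀ a ∈ G, ∀ n p (j : Fin (k n p)), θ.m ((c n p) ⁻¹' {j} ∩ supp a) =
      (FA.kp θ).m ((c n p) ⁻¹' {j}) / 2 + τ.m ((c n p) ⁻¹' {j}) := by
    intro a ha n p j
    have ha1 : τ.m (supp a)ᶜ = 0 := ha.1
    have ha2 := ha.2 n p j
    rw [← FA.kp_add_tp θ, ha2]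
    have h3 := τ.split ((c n p) ⁻¹' {j}) (supp a)
    have h4 : τ.m ((c n p) ⁻¹' {j} \ supp a) = 0 := by
      apply le_antisymm _ (τ.nonneg _)
      rw [← ha1]
      apply τ.mono
      intro i hi
      exact hi.2
    rw [h4, add_zero] at h3
    rw [h3]
  obtain ⟨a0, ha0⟩ := hne
  refine ⟨fun n => (ν n).m (supp a0), full_mono h2 ?_⟩
  intro a ha n
  have h5 : ∀ p : ℕ, |(ν n).m (supp a) - (ν n).m (supp a0)| ≤ 2 * (1 / ((p : ℝ) + 1)) := by
    intro p
    have e1 := hα n p (supp a)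
    have e2 := hα n p (supp a0)
    have e3 : ∑ j, α n p j * θ.m ((c n p) ⁻¹' {j} ∩ supp a) =
        ∑ j, α n p j * θ.m ((c n p) ⁻¹' {j} ∩ supp a0) := by
      apply Finset.sum_congr rfl
      intro j _
      rw [key a ha n p j, key a0 ha0 n p j]
    rw [e3] at e1
    rw [abs_le] at e1 e2 ⊢
    constructor <;> linarith [e1.1, e1.2, e2.1, e2.2]
  have h6 : |(ν n).m (supp a) - (ν n).m (supp a0)| ≤ 0 := by
    apply le_of_forall_pos_le_add
    intro ε hε
    obtain ⟨p, hp⟩ := exists_nat_one_div_lt (half_pos hε)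
    linarith [h5 p]
  have h7 := abs_eq_zero.1 (le_antisymm h6 (abs_nonneg _))
  show (ν n).m (supp a) = (ν n).m (supp a0)
  linarith

end Pool.Agent.Helper59.Pettis
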