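import Pool.Agent.Helper59.Pettis.Pet

/-!
The counterexample: a quasi-Radon probability space and a Pettis integrable function whose
indefinite integral does not have relatively compact range.
-/

open MeasureTheory Measure Set Filter
open scoped ENNReal Topology

namespace Pool.Agent.Helper59.Pettis

/-- the function -/
noncomputable def ff (y : Om YY) : LI := ind (supp (ca (pr YY y))) - ind (supp (cb (pr YY y)))

/-- its coordinates -/
noncomputable def gg (i : ℕ) (y : Om YY) : ℝ := gz i (pr YY y)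

lemma measurable_gg (i : ℕ) : Measurable (gg i) := (measurable_gz i).comp measurable_pr

lemma gg_abs (i : ℕ) (y : Om YY) : |gg i y| ≤ 1 := gz_abs i _

lemma ind_sub (z : Kx → Bool) (i : ℕ) :
    ind (supp (ca z)) i - ind (supp (cb z)) i = gz i z := by
  rw [ind_apply, ind_apply]
  unfold gz ak
  have h1 : (supp (ca z)).indicator (fun _ => (1 : ℝ)) i = if z (ia i) = true then 1 else 0 := by
    by_cases h : z (ia i) = true
    · rw [if_pos h, Set.indicator_of_mem]; exact h
    · rw [if_neg h, Set.indicator_of_notMem]; exact h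
  have h2 : (supp (cb z)).indicator (fun _ => (1 : ℝ)) i = if z (ib i) = true then 1 else 0 := by
    by_cases h : z (ib i) = true
    · rw [if_pos h, Set.indicator_of_mem]; exact h
    · rw [if_neg h, Set.indicator_of_notMem]; exact h
  rw [h1, h2]

lemma muO_int {F : (Kx → Bool) → ℝ} (hF : Measurable F) :
    ∫ y, F (pr YY y) ∂(muO YY) = ∫ z, F z ∂(MI Kx) := by
  rw [← muO_map YY_full, integral_map measurable_pr.aemeasurable]
  rw [muO_map YY_full]
  exact hF.aestronglyMeasurable

lemma gg_orth {i j : ℕ} (hij : i ≠ j) : ∫ y, gg i y * gg j y ∂(muO YY) = 0 := by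
  rw [← gz_orth hij]
  exact muO_int ((measurable_gz i).mul (measurable_gz j))

lemma gg_norm (i : ℕ) : ∫ y, gg i y * gg i y ∂(muO YY) = 1 / 2 := by
  rw [← gz_norm i]
  exact muO_int ((measurable_gz i).mul (measurable_gz i))

lemma ff_ae (φ : LI →L[ℝ] ℝ) : ∀ᵐ y ∂(muO YY), φ (ff y) = ∑' i, φ (ev i) * gg i y := by
  have h1 : ∀ᵐ y ∂(muO YY), act (pr YY y) φ := by
    have h2 := label_null φ
    rw [← muO_map YY_full] at h2
    exact ae_of_ae_map measurable_pr.aemeasurable h2
  filter_upwards [h1] with y hy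
  have h3 := (pr_mem y).2 φ hy
  have h4 := sing_eq φ h3
  show φ (ind (supp (ca (pr YY y))) - ind (supp (cb (pr YY y)))) = _
  rw [h4]
  congr 1
  funext i
  rw [ind_sub]
  rfl

/-- The sets. -/
def EE (i : ℕ) : Set (Om YY) := pr YY ⁻¹' {z | z (ia i) = true}

lemma measurable_EE (i : ℕ) : MeasurableSet (EE i) := by
  have h : MeasurableSet ((fun z : Kx → Bool => z (ia i)) ⁻¹' {true}) :=
    measurable_pi_apply (ia i) (measurableSet_singleton true)
  exact measurable_pr h

lemma int_EE (i j : ℕ) : ∫ y in EE i, gg j y ∂(muO YY) = ∫ z, ak (ia i) z * gz j z ∂(MI Kx) := by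
  have h0 : ∫ y, ak (ia i) (pr YY y) * gz j (pr YY y) ∂(muO YY) =
      ∫ z, ak (ia i) z * gz j z ∂(MI Kx) := muO_int ((measurable_ak _).mul (measurable_gz j))
  rw [← integral_indicator (measurable_EE i), ← h0]
  congr 1
  funext y
  unfold ak
  by_cases h : pr YY y (ia i) = true
  · have h' : y ∈ EE i := h
    rw [Set.indicator_of_mem h']
    simp [h, gg]
  · have h' : y ∉ EE i := h
    rw [Set.indicator_of_notMem h']
    simp [h]

theorem counterexample :
    (∀ φ : LI →L[ℝ] ℝ, Integrable (fun y => φ (ff y)) (muO YY)) ∧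
    (∀ E : Set (Om YY), MeasurableSet E →
      ∃ x : LI, ∀ φ : LI →L[ℝ] ℝ, φ x = ∫ y in E, φ (ff y) ∂(muO YY)) ∧
    ¬ IsCompact (closure {x : LI | ∃ E : Set (Om YY), MeasurableSet E ∧
      ∀ φ : LI →L[ℝ] ℝ, φ x = ∫ y in E, φ (ff y) ∂(muO YY)}) := by
  have hp := muO_prob YY_full
  have hmem : ∀ E : Set (Om YY), MeasurableSet E → ∀ φ : LI →L[ℝ] ℝ,
      φ (mkL (fun i => ∫ y in E, gg i y ∂(muO YY)) 1 (c_le gg_abs E)) =
        ∫ y in E, φ (ff y) ∂(muO YY) := by
    intro E hE φ
    rw [pettis_integral φ measurable_gg gg_abs (fun i j h => gg_orth h) gg_norm hE]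
    apply integral_congr_ae
    apply ae_restrict_of_ae
    filter_upwards [ff_ae φ] with y hy
    exact hy.symm
  refine ⟨?_, ?_, ?_⟩
  · intro φ
    apply (integrable_series φ measurable_gg gg_abs).congr
    filter_upwards [ff_ae φ] with y hy
    exact hy.symm
  · intro E hE
    exact ⟨_, hmem E hE⟩
  · intro hK
    set x : ℕ → LI := fun i =>
      mkL (fun j => ∫ y in EE i, gg j y ∂(muO YY)) 1 (c_le gg_abs (EE i)) with hx
    have hxm : ∀ i, x i ∈ closure {x : LI | ∃ E : Set (Om YY), MeasurableSet E ∧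
        ∀ φ : LI →L[ℝ] ℝ, φ x = ∫ y in E, φ (ff y) ∂(muO YY)} := by
      intro i
      apply subset_closure
      exact ⟨EE i, measurable_EE i, hmem _ (measurable_EE i)⟩
    obtain ⟨a, _, s, hs, hlim⟩ := hK.tendsto_subseq hxm
    have hC := hlim.cauchySeq
    rw [Metric.cauchySeq_iff] at hC
    obtain ⟨N, hN⟩ := hC (1 / 4) (by norm_num)
    have h1 := hN N le_rfl (N + 1) (by omega)
    have hne : s N ≠ s (N + 1) := (hs (by omega : N < N + 1)).ne
    have h2 : (x (s N) - x (s (N + 1))) (s N) = 1 / 4 := by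
      rw [BoundedContinuousFunction.sub_apply]
      show ∫ y in EE (s N), gg (s N) y ∂(muO YY) - ∫ y in EE (s (N + 1)), gg (s N) y ∂(muO YY) =
        1 / 4
      rw [int_EE, int_EE, ak_gz_self, ak_gz_ne (Ne.symm hne), sub_zero]
    have h3 := (x (s N) - x (s (N + 1))).norm_coe_le_norm (s N)
    rw [h2, ← dist_eq_norm] at h3
    have h4 : ‖(1 : ℝ) / 4‖ = 1 / 4 := by rw [Real.norm_eq_abs]; norm_num
    rw [h4] at h3
    have h5 : dist (x (s N)) (x (s (N + 1))) < 1 / 4 := h1
    linarith

end Pool.Agent.Helper59.Pettis
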