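import Pool.Agent.Helper59.Pettis.FT

/-!
Functionals on the space of bounded sequences.
-/

open MeasureTheory Measure Set Filter
open scoped ENNReal Topology

namespace Pool.Agent.Helper59.Pettis

/-- bounded real sequences -/
abbrev LI : Type := BoundedContinuousFunction ℕ ℝ

/-- make a bounded sequence -/
noncomputable def mkL (x : ℕ → ℝ) (C : ℝ) (h : ∀ n, |x n| ≤ C) : LI :=
  BoundedContinuousFunction.ofNormedAddCommGroupDiscrete x C h

lemma mkL_apply (x : ℕ → ℝ) (C : ℝ) (h : ∀ n, |x n| ≤ C) (n : ℕ) : mkL x C h n = x n := rfl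

/-- indicators -/
noncomputable def ind (S : Set ℕ) : LI := mkL (S.indicator fun _ => (1 : ℝ)) 1 (by
  intro n
  by_cases h : n ∈ S
  · rw [Set.indicator_of_mem h]; simp
  · rw [Set.indicator_of_notMem h]; simp)

lemma ind_apply (S : Set ℕ) (n : ℕ) : ind S n = S.indicator (fun _ => (1 : ℝ)) n := rfl

/-- unit vectors -/
noncomputable def ev (i : ℕ) : LI := ind {i}

lemma ev_self (i : ℕ) : ev i i = 1 := by
  unfold ev; rw [ind_apply]; simp

lemma ev_ne {i n : ℕ} (h : n ≠ i) : ev i n = 0 := by
  unfold ev; rw [ind_apply, Set.indicator_of_notMem]; simpa using h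

lemma sum_ev_apply (F : Finset ℕ) (s : ℕ → ℝ) (n : ℕ) :
    (∑ i ∈ F, s i • ev i) n = if n ∈ F then s n else 0 := by
  rw [BoundedContinuousFunction.sum_apply]
  have h1 : ∀ i ∈ F, (s i • ev i) n = if i = n then s n else 0 := by
    intro i _
    rw [BoundedContinuousFunction.coe_smul]
    show s i • (ev i) n = _
    by_cases h : i = n
    · subst h; rw [ev_self]; simp
    · rw [ev_ne (fun h' => h h'.symm), if_neg h]; simp
  rw [Finset.sum_congr rfl h1, Finset.sum_ite_eq']

variable (φ : LI →L[ℝ] ℝ)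

lemma sum_abs_le (F : Finset ℕ) : ∑ i ∈ F, |φ (ev i)| ≤ ‖φ‖ := by
  set s : ℕ → ℝ := fun i => SignType.sign (φ (ev i)) with hs
  have h1 : ∑ i ∈ F, |φ (ev i)| = φ (∑ i ∈ F, s i • ev i) := by
    rw [_root_.map_sum]
    apply Finset.sum_congr rfl
    intro i _
    rw [map_smul, smul_eq_mul]
    simp only [hs]
    exact (sign_mul_self (φ (ev i))).symm
  have h2 : ‖∑ i ∈ F, s i • ev i‖ ≤ 1 := by
    rw [BoundedContinuousFunction.norm_le zero_le_one]
    intro n
    rw [sum_ev_apply]
    split_ifs
    · simp only [hs]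
      rcases lt_trichotomy (φ (ev n)) 0 with h | h | h
      · rw [sign_neg h]; simp
      · rw [h]; simp
      · rw [sign_pos h]; simp
    · simp
  rw [h1]
  calc φ (∑ i ∈ F, s i • ev i) ≤ ‖φ (∑ i ∈ F, s i • ev i)‖ := Real.le_norm_self _
    _ ≤ ‖φ‖ * ‖∑ i ∈ F, s i • ev i‖ := φ.le_opNorm _
    _ ≤ ‖φ‖ * 1 := mul_le_mul_of_nonneg_left h2 (norm_nonneg φ)
    _ = ‖φ‖ := mul_one _

lemma summable_abs : Summable fun i => |φ (ev i)| :=
  summable_of_sum_le (fun _ => abs_nonneg _) (sum_abs_le φ)

lemma tsum_abs_le : ∑' i, |φ (ev i)| ≤ ‖φ‖ :=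
  (summable_abs φ).tsum_le_of_sum_le (sum_abs_le φ)

lemma summable_mul {x : ℕ → ℝ} {C : ℝ} (h : ∀ n, |x n| ≤ C) :
    Summable fun i => φ (ev i) * x i := by
  apply Summable.of_norm_bounded (g := fun i => |φ (ev i)| * C) ((summable_abs φ).mul_right C)
  intro i
  rw [Real.norm_eq_abs, abs_mul]
  exact mul_le_mul_of_nonneg_left (h i) (abs_nonneg _)

lemma eval_c0 (x : LI) (hx : Tendsto (fun n => x n) atTop (𝓝 0)) :
    φ x = ∑' i, φ (ev i) * x i := by
  have hb : ∀ n, |x n| ≤ ‖x‖ := fun n => x.norm_coe_le_norm n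
  have h1 : Tendsto (fun n => ∑ i ∈ Finset.range n, x i • ev i) atTop (𝓝 x) := by
    rw [Metric.tendsto_atTop]
    intro ε hε
    rw [Metric.tendsto_atTop] at hx
    obtain ⟨N, hN⟩ := hx (ε / 2) (by positivity)
    refine ⟨N, fun n hn => ?_⟩
    rw [dist_eq_norm]
    refine lt_of_le_of_lt ((BoundedContinuousFunction.norm_le (half_pos hε).le).2 ?_)
      (half_lt_self hε)
    intro k
    rw [BoundedContinuousFunction.sub_apply, sum_ev_apply]
    by_cases hk : k ∈ Finset.range n
    · rw [if_pos hk]; simp; linarith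
    · rw [if_neg hk]
      have hk' : n ≤ k := by simpa using hk
      have := hN k (hn.trans hk')
      rw [Real.dist_eq, sub_zero] at this
      rw [zero_sub, norm_neg, Real.norm_eq_abs]
      exact this.le
  have h2 : Tendsto (fun n => φ (∑ i ∈ Finset.range n, x i • ev i)) atTop (𝓝 (φ x)) :=
    (φ.continuous.tendsto x).comp h1
  have h3 := (summable_mul φ hb).hasSum.tendsto_sum_nat
  refine tendsto_nhds_unique h2 (h3.congr fun n => ?_)
  rw [_root_.map_sum]
  apply Finset.sum_congr rfl
  intro i _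
  rw [map_smul, smul_eq_mul, mul_comm]

lemma summable_ind (S : Set ℕ) : Summable (S.indicator fun i => φ (ev i)) := by
  apply Summable.of_norm_bounded (g := fun i => |φ (ev i)|) (summable_abs φ)
  intro i
  rw [Real.norm_eq_abs]
  by_cases h : i ∈ S
  · rw [Set.indicator_of_mem h]
  · rw [Set.indicator_of_notMem h]; simp

/-- The singular part of a functional. -/
noncomputable def sing : SFA where
  m S := φ (ind S) - ∑' i, S.indicator (fun i => φ (ev i)) i
  add S T h := by
    have h1 : ind (S ∪ T) = ind S + ind T := by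
      ext n
      rw [BoundedContinuousFunction.add_apply, ind_apply, ind_apply, ind_apply,
        Set.indicator_union_of_disjoint h]
    have h2 : ∀ i, (S ∪ T).indicator (fun i => φ (ev i)) i =
        S.indicator (fun i => φ (ev i)) i + T.indicator (fun i => φ (ev i)) i := by
      intro i
      rw [Set.indicator_union_of_disjoint h]
    simp only [h2]
    rw [h1, map_add, (summable_ind φ S).tsum_add (summable_ind φ T)]
    ring
  C := ‖φ‖ + ‖φ‖
  bound S := by
    refine (abs_sub _ _).trans (add_le_add ?_ ?_)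
    · have h1 : ‖ind S‖ ≤ 1 := by
        rw [BoundedContinuousFunction.norm_le zero_le_one]
        intro n
        rw [ind_apply]
        by_cases h : n ∈ S
        · rw [Set.indicator_of_mem h]; simp
        · rw [Set.indicator_of_notMem h]; simp
      calc |φ (ind S)| = ‖φ (ind S)‖ := rfl
        _ ≤ ‖φ‖ * ‖ind S‖ := φ.le_opNorm _
        _ ≤ ‖φ‖ * 1 := mul_le_mul_of_nonneg_left h1 (norm_nonneg φ)
        _ = ‖φ‖ := mul_one _
    · have h2 : |∑' i, S.indicator (fun i => φ (ev i)) i| ≤ ∑' i, |φ (ev i)| := by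
        have h3 := (summable_ind φ S).norm
        refine (norm_tsum_le_tsum_norm h3).trans (h3.tsum_le_tsum (fun i => ?_) (summable_abs φ))
        rw [Real.norm_eq_abs]
        by_cases h : i ∈ S
        · rw [Set.indicator_of_mem h]
        · rw [Set.indicator_of_notMem h]; simp
      exact h2.trans (tsum_abs_le φ)
  fin S hS := by
    have h1 : ind S = ∑ i ∈ hS.toFinset, (1 : ℝ) • ev i := by
      ext n
      rw [sum_ev_apply, ind_apply]
      by_cases h : n ∈ S
      · rw [Set.indicator_of_mem h, if_pos (by simpa using h)]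
      · rw [Set.indicator_of_notMem h, if_neg (by simpa using h)]
    have h2 : ∑' i, S.indicator (fun i => φ (ev i)) i = ∑ i ∈ hS.toFinset, φ (ev i) := by
      rw [tsum_eq_sum (s := hS.toFinset)]
      · apply Finset.sum_congr rfl
        intro i hi
        rw [Set.indicator_of_mem (by simpa using hi)]
      · intro i hi
        rw [Set.indicator_of_notMem (by simpa using hi)]
    rw [h1, h2, _root_.map_sum]
    simp

lemma sing_eq {A B : Set ℕ} (h : (sing φ).m A = (sing φ).m B) :
    φ (ind A - ind B) = ∑' i, φ (ev i) * (ind A i - ind B i) := by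
  have h1 : φ (ind A) - ∑' i, A.indicator (fun i => φ (ev i)) i =
      φ (ind B) - ∑' i, B.indicator (fun i => φ (ev i)) i := h
  have h2 : ∀ i, φ (ev i) * (ind A i - ind B i) =
      A.indicator (fun i => φ (ev i)) i - B.indicator (fun i => φ (ev i)) i := by
    intro i
    rw [ind_apply, ind_apply]
    by_cases hA : i ∈ A <;> by_cases hB : i ∈ B <;> simp [hA, hB]
  simp only [h2]
  rw [(summable_ind φ A).tsum_sub (summable_ind φ B), map_sub]
  linarith

end Pool.Agent.Helper59.Pettis
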