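import Pool.Agent.Helper59.Pettis.QR
import Pool.Agent.Helper59.Pettis.Linf

/-!
The nonmeasurable set carrying the counterexample.
-/

open MeasureTheory Measure Set Filter
open scoped ENNReal Topology

namespace Pool.Agent.Helper59.Pettis

lemma measurable_elim {α β : Type*} :
    Measurable (fun (p : (α → Bool) × (β → Bool)) => (Sum.elim p.1 p.2 : α ⊕ β → Bool)) := by
  apply measurable_pi_lambda
  rintro (a | b)
  · simp only [Sum.elim_inl]; fun_prop
  · simp only [Sum.elim_inr]; fun_prop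

lemma sum_split (α β : Type*) :
    ((MI α).prod (MI β)).map (fun p => (Sum.elim p.1 p.2 : α ⊕ β → Bool)) = MI (α ⊕ β) := by
  show _ = infinitePi (fun _ : α ⊕ β => ber hf)
  apply eq_infinitePi
  intro s t ht
  rw [Measure.map_apply measurable_elim (MeasurableSet.pi s.countable_toSet fun i _ => ht i)]
  have e : (fun (p : (α → Bool) × (β → Bool)) => (Sum.elim p.1 p.2 : α ⊕ β → Bool)) ⁻¹'
      (Set.pi (s : Set (α ⊕ β)) t) =
      (Set.pi (s.toLeft : Set α) fun a => t (Sum.inl a)) ×ˢ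
      (Set.pi (s.toRight : Set β) fun b => t (Sum.inr b)) := by
    ext ⟨x, y⟩
    constructor
    · intro h
      constructor
      · intro a ha
        exact h (Sum.inl a) (by simpa using ha)
      · intro b hb
        exact h (Sum.inr b) (by simpa using hb)
    · rintro ⟨h1, h2⟩ (a | b) hi
      · exact h1 a (by simpa using hi)
      · exact h2 b (by simpa using hi)
  rw [e, Measure.prod_prod]
  unfold MI
  rw [infinitePi_pi _ (fun i _ => ht _), infinitePi_pi _ (fun i _ => ht _),
    Finset.prod_sum_eq_prod_toLeft_mul_prod_toRight]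

/-- the index set -/
abbrev Kx : Type := (ℕ ⊕ ℕ) ⊕ ((LI →L[ℝ] ℝ) × ℕ)

/-- first random set -/
def ca (z : Kx → Bool) (n : ℕ) : Bool := z (Sum.inl (Sum.inl n))

/-- second random set -/
def cb (z : Kx → Bool) (n : ℕ) : Bool := z (Sum.inl (Sum.inr n))

/-- active labels -/
def act (z : Kx → Bool) (φ : LI →L[ℝ] ℝ) : Prop := ∃ n, z (Sum.inr (φ, n)) = true

/-- the carrier -/
def YY : Set (Kx → Bool) := {z | {φ | act z φ}.Countable ∧
  ∀ φ, act z φ → (sing φ).m (supp (ca z)) = (sing φ).m (supp (cb z))}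

lemma YY_full : MI Kx YY = 1 := by
  classical
  set H := toMeasurable (MI Kx) YY with hH
  have hHm : MeasurableSet H := measurableSet_toMeasurable _ _
  obtain ⟨J, hJ, hJ2⟩ := exists_forget hHm
  -- the labels in play
  set L : Set (LI →L[ℝ] ℝ) := {φ | ∃ n, (Sum.inr (φ, n) : Kx) ∈ J} ∪ {0} with hL
  have hLc : L.Countable := by
    apply Set.Countable.union _ (Set.countable_singleton _)
    have h1 : (Sum.inr ⁻¹' J : Set ((LI →L[ℝ] ℝ) × ℕ)).Countable :=
      hJ.preimage Sum.inr_injective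
    apply (h1.image Prod.fst).mono
    rintro φ ⟨n, hn⟩
    exact ⟨(φ, n), hn, rfl⟩
  obtain ⟨ψ, hψ⟩ := hLc.exists_eq_range ⟨0, Or.inr rfl⟩
  obtain ⟨v, hv⟩ := fremlin_talagrand (fun n => sing (ψ n))
  set G := {a : ℕ → Bool | ∀ n, (sing (ψ n)).m (supp a) = v n} with hG
  have hG' : MI ℕ G = 1 := hv
  have h1 : ((MI ℕ).prod (MI ℕ)) (G ×ˢ G) = 1 := by
    rw [Measure.prod_prod, hG', one_mul]
  have h2 : MI (ℕ ⊕ ℕ) {w | (fun n => w (Sum.inl n)) ∈ G ∧ (fun n => w (Sum.inr n)) ∈ G} = 1 := by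
    apply full_of_map measurable_elim (sum_split ℕ ℕ) h1
    rintro ⟨a, b⟩ ⟨ha, hb⟩
    exact ⟨ha, hb⟩
  have h3 : ((MI (ℕ ⊕ ℕ)).prod (MI ((LI →L[ℝ] ℝ) × ℕ)))
      ({w | (fun n => w (Sum.inl n)) ∈ G ∧ (fun n => w (Sum.inr n)) ∈ G} ×ˢ univ) = 1 := by
    rw [Measure.prod_prod, h2, measure_univ, one_mul]
  have h4 : MI Kx {z | ca z ∈ G ∧ cb z ∈ G} = 1 := by
    apply full_of_map measurable_elim (sum_split _ _) h3
    rintro ⟨w, u⟩ ⟨⟨ha, hb⟩, _⟩
    exact ⟨ha, hb⟩
  have h5 : {z | ca z ∈ G ∧ cb z ∈ G} ⊆ H := by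
    rintro z ⟨hza, hzb⟩
    -- modify the labels
    let z' : Kx → Bool := fun k => match k with
      | Sum.inl k => z (Sum.inl k)
      | Sum.inr (φ, n) => if φ ∈ L then z (Sum.inr (φ, n)) else false
    have hact : ∀ φ, act z' φ → φ ∈ L := by
      rintro φ ⟨n, hn⟩
      by_contra hcon
      have : z' (Sum.inr (φ, n)) = false := if_neg hcon
      rw [this] at hn
      exact Bool.false_ne_true hn
    have hz'Y : z' ∈ YY := by
      constructor
      · exact hLc.mono hact
      · intro φ hφ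
        have h6 := hact φ hφ
        rw [hψ] at h6
        obtain ⟨n, rfl⟩ := h6
        have e1 := hza n
        have e2 := hzb n
        have e3 : ca z' = ca z := rfl
        have e4 : cb z' = cb z := rfl
        rw [e3, e4, e1, e2]
    have hz'H : z' ∈ H := subset_toMeasurable _ _ hz'Y
    have e5 : forget J z' = forget J z := by
      funext k
      unfold forget
      by_cases hk : k ∈ J
      · rw [if_pos hk, if_pos hk]
        rcases k with k | ⟨φ, n⟩
        · rfl
        · have : φ ∈ L := Or.inl ⟨n, hk⟩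
          exact if_pos this
      · rw [if_neg hk, if_neg hk]
    rw [← hJ2] at hz'H ⊢
    show forget J z ∈ H
    rw [← e5]
    exact hz'H
  apply le_antisymm prob_le_one
  rw [← measure_toMeasurable YY, ← h4]
  exact measure_mono h5

lemma label_null (φ : LI →L[ℝ] ℝ) : ∀ᵐ z ∂(MI Kx), act z φ := by
  have h1 : ∀ N : ℕ, MI Kx {z | ¬ act z φ} ≤ ENNReal.ofReal (1 / 2) ^ N := by
    intro N
    let F : Finset Kx := (Finset.range N).map ⟨fun n => Sum.inr (φ, n), by
      intro a b h
      simpa using h⟩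
    have h2 : MI Kx (Set.pi (F : Set Kx) fun _ => {false}) = ENNReal.ofReal (1 / 2) ^ N := by
      unfold MI
      rw [infinitePi_pi _ (fun i _ => measurableSet_singleton _), Finset.prod_const,
        Finset.card_map, Finset.card_range, ber_false]
      congr 2
      simp [hf]; norm_num
    rw [← h2]
    apply measure_mono
    intro z hz k hk
    have hz' : ¬ ∃ n, z (Sum.inr (φ, n)) = true := hz
    push Not at hz'
    obtain ⟨n, _, rfl⟩ := Finset.mem_map.1 hk
    exact Bool.eq_false_iff.2 (hz' n)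
  rw [ae_iff]
  apply le_antisymm _ (by simp)
  have h3 : Tendsto (fun N : ℕ => ENNReal.ofReal (1 / 2) ^ N) atTop (𝓝 0) :=
    ENNReal.tendsto_pow_atTop_nhds_zero_of_lt_one (by
      rw [ENNReal.ofReal_lt_one]; norm_num)
  exact ge_of_tendsto' h3 h1

end Pool.Agent.Helper59.Pettis
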