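import Pool.Agent.Helper59.Pettis.Ber

/-!
Boolean operations on Bernoulli sequences, and the frequently calculus.
-/

open MeasureTheory Measure unitInterval Set Filter
open scoped ENNReal

namespace Pool.Agent.Helper59.Pettis

lemma eq_ber_false {m : Measure Bool} [IsProbabilityMeasure m] {p : I}
    (h : m {false} = ENNReal.ofReal (1 - p)) : m = ber p := by
  apply eq_ber
  have h2 : m {true} + m {false} = 1 := by
    rw [← measure_union (by simp) (measurableSet_singleton _), ← univ_bool, measure_univ]
  have h3 : ber p {true} + ber p {false} = 1 := by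
    rw [← measure_union (by simp) (measurableSet_singleton _), ← univ_bool, measure_univ]
  rw [ber_true, ber_false] at h3
  rw [h] at h2
  exact (ENNReal.add_left_inj ENNReal.ofReal_ne_top).1 (h2.trans h3.symm)

lemma law_and (p q : I) :
    ((ber p).prod (ber q)).map (fun z => z.1 && z.2) = ber (p * q) := by
  have : IsProbabilityMeasure (((ber p).prod (ber q)).map (fun z => z.1 && z.2)) :=
    isProbabilityMeasure_map (measurable_of_countable _).aemeasurable
  apply eq_ber
  rw [Measure.map_apply (measurable_of_countable _) (measurableSet_singleton _)]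
  have e : (fun z : Bool × Bool => z.1 && z.2) ⁻¹' {true} = {true} ×ˢ {true} := by
    ext ⟨a, b⟩; simp
  rw [e, Measure.prod_prod, ber_true, ber_true, ← ENNReal.ofReal_mul p.2.1]
  rfl

lemma law_or (p q : I) :
    ((ber p).prod (ber q)).map (fun z => z.1 || z.2) = ber (σ (σ p * σ q)) := by
  have : IsProbabilityMeasure (((ber p).prod (ber q)).map (fun z => z.1 || z.2)) :=
    isProbabilityMeasure_map (measurable_of_countable _).aemeasurable
  apply eq_ber_false
  rw [Measure.map_apply (measurable_of_countable _) (measurableSet_singleton _)]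
  have e : (fun z : Bool × Bool => z.1 || z.2) ⁻¹' {false} = {false} ×ˢ {false} := by
    ext ⟨a, b⟩; simp
  rw [e, Measure.prod_prod, ber_false, ber_false, ← ENNReal.ofReal_mul (by linarith [p.2.2])]
  congr 1
  simp

lemma law_fst (p q : I) : ((ber p).prod (ber q)).map (fun z => z.1) = ber p :=
  Measure.map_fst_prod.trans (by rw [measure_univ, one_smul])

lemma law_snd (p q : I) : ((ber p).prod (ber q)).map (fun z => z.2) = ber q :=
  Measure.map_snd_prod.trans (by rw [measure_univ, one_smul])

lemma PP_not (p : I) : (PP p).map (fun a i => !(a i)) = PP (σ p) := by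
  unfold PP
  rw [infinitePi_map_pi (f := fun _ : ℕ => Bool.not) _ (fun i => measurable_of_countable _)]
  congr 1
  funext i
  have : IsProbabilityMeasure ((ber p).map Bool.not) :=
    isProbabilityMeasure_map (measurable_of_countable _).aemeasurable
  apply eq_ber
  rw [Measure.map_apply (measurable_of_countable _) (measurableSet_singleton _)]
  have e : Bool.not ⁻¹' {true} = {false} := by
    ext a; cases a <;> simp
  rw [e, ber_false]
  rfl

/-- frequently principle for two-fold operations -/
lemma freq2 {p q r : I} {g : ℕ → Bool → Bool → Bool}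
    (hr : ∀ i, ((ber p).prod (ber q)).map (fun z => g i z.1 z.2) = ber r)
    {Q : (ℕ → Bool) → Prop}
    (h : ∃ᶠ a in ae (PP p), ∃ᶠ b in ae (PP q), Q (fun i => g i (a i) (b i))) :
    ∃ᶠ c in ae (PP r), Q c := by
  by_contra hcon
  rw [Filter.not_frequently] at hcon
  have hm : Measurable (fun z : (ℕ → Bool) × (ℕ → Bool) => fun i => g i (z.1 i) (z.2 i)) := by
    apply measurable_pi_lambda
    intro i
    have : Measurable (fun z : Bool × Bool => g i z.1 z.2) := measurable_of_countable _
    exact this.comp (by fun_prop : Measurable fun z : (ℕ → Bool) × (ℕ → Bool) => (z.1 i, z.2 i))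
  rw [← cw2 p q g r hr] at hcon
  have h1 := ae_of_ae_map hm.aemeasurable hcon
  have h2 := ae_ae_of_ae_prod h1
  apply h
  filter_upwards [h2] with a ha
  rw [Filter.not_frequently]
  exact ha

lemma freq_and {p q : I} {Q : (ℕ → Bool) → Prop}
    (h : ∃ᶠ a in ae (PP p), ∃ᶠ b in ae (PP q), Q (fun i => a i && b i)) :
    ∃ᶠ c in ae (PP (p * q)), Q c :=
  freq2 (g := fun _ a b => a && b) (fun _ => law_and p q) h

lemma freq_or {p q : I} {Q : (ℕ → Bool) → Prop}
    (h : ∃ᶠ a in ae (PP p), ∃ᶠ b in ae (PP q), Q (fun i => a i || b i)) :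
    ∃ᶠ c in ae (PP (σ (σ p * σ q))), Q c :=
  freq2 (g := fun _ a b => a || b) (fun _ => law_or p q) h

open Classical in
lemma freq_splice {p : I} (S : Set ℕ) {Q : (ℕ → Bool) → Prop}
    (h : ∃ᶠ a in ae (PP p), ∃ᶠ b in ae (PP p), Q (fun i => if i ∈ S then a i else b i)) :
    ∃ᶠ c in ae (PP p), Q c := by
  apply freq2 (p := p) (q := p) (g := fun i a b => if i ∈ S then a else b) (fun i => ?_) h
  by_cases hi : i ∈ S
  · simp only [hi, if_true]; exact law_fst p p
  · simp only [hi, if_false]; exact law_snd p p

lemma freq_not {p : I} {Q : (ℕ → Bool) → Prop}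
    (h : ∃ᶠ a in ae (PP p), Q (fun i => !(a i))) : ∃ᶠ c in ae (PP (σ p)), Q c := by
  by_contra hcon
  rw [Filter.not_frequently, ← PP_not] at hcon
  have hm : Measurable (fun (a : ℕ → Bool) i => !(a i)) := by
    apply measurable_pi_lambda
    intro i
    exact (measurable_of_countable Bool.not).comp (measurable_pi_apply i)
  exact h (ae_of_ae_map hm.aemeasurable hcon)

lemma ae_not {p : I} {Q : (ℕ → Bool) → Prop}
    (h : ∀ᵐ c ∂(PP (σ p)), Q c) : ∀ᵐ a ∂(PP p), Q (fun i => !(a i)) := by
  rw [← PP_not] at h
  have hm : Measurable (fun (a : ℕ → Bool) i => !(a i)) := by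
    apply measurable_pi_lambda
    intro i
    exact (measurable_of_countable Bool.not).comp (measurable_pi_apply i)
  exact ae_of_ae_map hm.aemeasurable h

/-- The fair parameter. -/
noncomputable def hf : I := ⟨1 / 2, by norm_num, by norm_num⟩

lemma symm_hf : σ hf = hf := by
  apply Subtype.ext
  simp [hf]
  norm_num

end Pool.Agent.Helper59.Pettis
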