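import Pool.Agent.Helper59.Pettis.Full

/-!
The Pettis integral of the example.
-/

open MeasureTheory Measure Set Filter
open scoped ENNReal Topology

namespace Pool.Agent.Helper59.Pettis

section abstract

variable {Ω : Type*} [MeasurableSpace Ω] {μ : Measure Ω} [IsProbabilityMeasure μ]

lemma integrable_bdd {f : Ω → ℝ} (hf : Measurable f) {C : ℝ} (hC : ∀ ω, |f ω| ≤ C)
    (ν : Measure Ω) [IsFiniteMeasure ν] : Integrable f ν :=
  Integrable.of_bound hf.aestronglyMeasurable C (Filter.Eventually.of_forall hC)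

variable {g : ℕ → Ω → ℝ}

lemma c_le (hg1 : ∀ i ω, |g i ω| ≤ 1) (E : Set Ω) (i : ℕ) : |∫ ω in E, g i ω ∂μ| ≤ 1 := by
  have h1 : ‖∫ ω in E, g i ω ∂μ‖ ≤ 1 * (μ.restrict E).real univ := by
    apply norm_integral_le_of_norm_le_const
    exact Filter.Eventually.of_forall fun ω => hg1 i ω
  rw [Real.norm_eq_abs] at h1
  refine h1.trans ?_
  rw [one_mul, measureReal_restrict_apply_univ]
  exact measureReal_le_one

lemma bessel (hgm : ∀ i, Measurable (g i)) (hg1 : ∀ i ω, |g i ω| ≤ 1)
    (horth : ∀ i j, i ≠ j → ∫ ω, g i ω * g j ω ∂μ = 0)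
    (hnorm : ∀ i, ∫ ω, g i ω * g i ω ∂μ = 1 / 2) {E : Set Ω} (hE : MeasurableSet E) :
    Tendsto (fun i => ∫ ω in E, g i ω ∂μ) atTop (𝓝 0) := by
  set c : ℕ → ℝ := fun i => ∫ ω in E, g i ω ∂μ with hc
  set h : Ω → ℝ := E.indicator (fun _ => (1 : ℝ)) with hh
  have hhm : Measurable h := measurable_const.indicator hE
  have hh1 : ∀ ω, |h ω| ≤ 1 := by
    intro ω
    by_cases hω : ω ∈ E
    · simp [hh, hω]
    · simp [hh, hω]
  have hci : ∀ i, ∫ ω, h ω * g i ω ∂μ = c i := by
    intro i
    rw [hc]
    simp only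
    rw [← integral_indicator hE]
    congr 1
    funext ω
    by_cases hω : ω ∈ E
    · simp [hh, hω]
    · simp [hh, hω]
  have hkey : ∀ F : Finset ℕ, ∑ i ∈ F, (c i) ^ 2 ≤ 1 / 2 := by
    intro F
    set S : Ω → ℝ := fun ω => ∑ i ∈ F, c i * g i ω with hS
    have hSm : Measurable S := by
      apply Finset.measurable_sum
      intro i _
      exact (hgm i).const_mul _
    have hSb : ∀ ω, |S ω| ≤ ∑ i ∈ F, |c i| := by
      intro ω
      refine (Finset.abs_sum_le_sum_abs _ _).trans (Finset.sum_le_sum fun i _ => ?_)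
      rw [abs_mul]
      calc |c i| * |g i ω| ≤ |c i| * 1 := mul_le_mul_of_nonneg_left (hg1 i ω) (abs_nonneg _)
        _ = |c i| := mul_one _
    set B := ∑ i ∈ F, |c i| with hB
    have hB0 : 0 ≤ B := Finset.sum_nonneg fun _ _ => abs_nonneg _
    have hgi : ∀ i j, Integrable (fun ω => g i ω * g j ω) μ := by
      intro i j
      apply integrable_bdd ((hgm i).mul (hgm j)) (C := 1)
      intro ω
      rw [Pi.mul_apply, abs_mul]
      exact mul_le_one₀ (hg1 i ω) (abs_nonneg _) (hg1 j ω)
    have hhg : ∀ i, Integrable (fun ω => h ω * g i ω) μ := by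
      intro i
      apply integrable_bdd (hhm.mul (hgm i)) (C := 1)
      intro ω
      rw [Pi.mul_apply, abs_mul]
      exact mul_le_one₀ (hh1 ω) (abs_nonneg _) (hg1 i ω)
    have h1 : ∫ ω, h ω * S ω ∂μ = ∑ i ∈ F, (c i) ^ 2 := by
      have e : (fun ω => h ω * S ω) = fun ω => ∑ i ∈ F, c i * (h ω * g i ω) := by
        funext ω
        simp only [hS]
        rw [Finset.mul_sum]
        apply Finset.sum_congr rfl
        intro i _
        ring
      rw [e, integral_finsetSum _ (fun i _ => (hhg i).const_mul _)]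
      apply Finset.sum_congr rfl
      intro i _
      rw [integral_const_mul, hci]
      ring
    have h2 : ∫ ω, S ω * S ω ∂μ = (∑ i ∈ F, (c i) ^ 2) / 2 := by
      have e : (fun ω => S ω * S ω) =
          fun ω => ∑ i ∈ F, ∑ j ∈ F, (c i * c j) * (g i ω * g j ω) := by
        funext ω
        simp only [hS]
        rw [Finset.sum_mul_sum]
        apply Finset.sum_congr rfl
        intro i _
        apply Finset.sum_congr rfl
        intro j _
        ring
      rw [e, integral_finsetSum _ (fun i _ => integrable_finsetSum _ fun j _ =>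
        (hgi i j).const_mul _), Finset.sum_div]
      apply Finset.sum_congr rfl
      intro i hi
      rw [integral_finsetSum _ (fun j _ => (hgi i j).const_mul _)]
      rw [Finset.sum_eq_single i]
      · rw [integral_const_mul, hnorm]
        ring
      · intro j _ hj
        rw [integral_const_mul, horth i j (Ne.symm hj), mul_zero]
      · intro hi'
        exact absurd hi hi'
    have hhS : Integrable (fun ω => h ω * S ω) μ := by
      apply integrable_bdd (hhm.mul hSm) (C := B)
      intro ω
      rw [Pi.mul_apply, abs_mul]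
      calc |h ω| * |S ω| ≤ 1 * B := mul_le_mul (hh1 ω) (hSb ω) (abs_nonneg _) zero_le_one
        _ = B := one_mul _
    have hSS : Integrable (fun ω => S ω * S ω) μ := by
      apply integrable_bdd (hSm.mul hSm) (C := B * B)
      intro ω
      rw [Pi.mul_apply, abs_mul]
      exact mul_le_mul (hSb ω) (hSb ω) (abs_nonneg _) hB0
    have hh2 : Integrable h μ := integrable_bdd hhm hh1 μ
    have h3 : 0 ≤ ∫ ω, (h ω - 2 * S ω) * (h ω - 2 * S ω) ∂μ :=
      integral_nonneg fun ω => mul_self_nonneg _
    have h4 : ∫ ω, (h ω - 2 * S ω) * (h ω - 2 * S ω) ∂μ =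
        ∫ ω, h ω ∂μ - 4 * ∫ ω, h ω * S ω ∂μ + 4 * ∫ ω, S ω * S ω ∂μ := by
      have e1 : ∫ ω, (h ω - 4 * (h ω * S ω)) ∂μ = ∫ ω, h ω ∂μ - ∫ ω, 4 * (h ω * S ω) ∂μ :=
        integral_sub hh2 (hhS.const_mul 4)
      have e2 : ∫ ω, ((h ω - 4 * (h ω * S ω)) + 4 * (S ω * S ω)) ∂μ =
          ∫ ω, (h ω - 4 * (h ω * S ω)) ∂μ + ∫ ω, 4 * (S ω * S ω) ∂μ :=
        integral_add (hh2.sub (hhS.const_mul 4)) (hSS.const_mul 4)
      rw [← integral_const_mul, ← integral_const_mul, ← e1, ← e2]
      congr 1
      funext ω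
      have : h ω * h ω = h ω := by
        by_cases hω : ω ∈ E
        · simp [hh, hω]
        · simp [hh, hω]
      linear_combination this
    have h5 : ∫ ω, h ω ∂μ ≤ 1 := by
      have h6 : ‖∫ ω, h ω ∂μ‖ ≤ 1 * μ.real univ := by
        apply norm_integral_le_of_norm_le_const
        exact Filter.Eventually.of_forall hh1
      have h7 := (abs_le.1 h6).2
      simpa using h7
    rw [h4, h1, h2] at h3
    linarith
  have h8 : Summable fun i => (c i) ^ 2 := summable_of_sum_le (fun i => sq_nonneg _) hkey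
  have h9 := h8.tendsto_atTop_zero
  have h10 : Tendsto (fun i => |c i|) atTop (𝓝 0) := by
    have h11 := (Real.continuous_sqrt.tendsto 0).comp h9
    rw [Real.sqrt_zero] at h11
    refine h11.congr fun i => ?_
    exact Real.sqrt_sq_eq_abs _
  exact (tendsto_zero_iff_abs_tendsto_zero _).2 h10

variable (φ : LI →L[ℝ] ℝ)

lemma integrable_series (hgm : ∀ i, Measurable (g i)) (hg1 : ∀ i ω, |g i ω| ≤ 1) :
    Integrable (fun ω => ∑' i, φ (ev i) * g i ω) μ := by
  have hs : ∀ ω, Summable fun i => φ (ev i) * g i ω := fun ω =>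
    summable_mul φ (x := fun i => g i ω) (fun i => hg1 i ω)
  apply Integrable.of_bound (C := ‖φ‖)
  · apply aestronglyMeasurable_of_tendsto_ae atTop
      (f := fun n ω => ∑ i ∈ Finset.range n, φ (ev i) * g i ω)
    · intro n
      apply Measurable.aestronglyMeasurable
      apply Finset.measurable_sum
      intro i _
      exact (hgm i).const_mul _
    · exact Filter.Eventually.of_forall fun ω => (hs ω).hasSum.tendsto_sum_nat
  · apply Filter.Eventually.of_forall
    intro ω
    have h1 := (hs ω).norm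
    refine (norm_tsum_le_tsum_norm h1).trans
      ((h1.tsum_le_tsum (fun i => ?_) (summable_abs φ)).trans (tsum_abs_le φ))
    rw [Real.norm_eq_abs, abs_mul]
    calc |φ (ev i)| * |g i ω| ≤ |φ (ev i)| * 1 :=
          mul_le_mul_of_nonneg_left (hg1 i ω) (abs_nonneg _)
      _ = |φ (ev i)| := mul_one _

lemma pettis_integral (hgm : ∀ i, Measurable (g i)) (hg1 : ∀ i ω, |g i ω| ≤ 1)
    (horth : ∀ i j, i ≠ j → ∫ ω, g i ω * g j ω ∂μ = 0)
    (hnorm : ∀ i, ∫ ω, g i ω * g i ω ∂μ = 1 / 2) {E : Set Ω} (hE : MeasurableSet E) :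
    φ (mkL (fun i => ∫ ω in E, g i ω ∂μ) 1 (c_le hg1 E)) =
      ∫ ω in E, ∑' i, φ (ev i) * g i ω ∂μ := by
  rw [eval_c0 φ _ (bessel hgm hg1 horth hnorm hE)]
  have hint : ∀ i, Integrable (fun ω => φ (ev i) * g i ω) (μ.restrict E) := fun i =>
    (integrable_bdd (hgm i) (hg1 i) _).const_mul _
  have h1 : Summable fun i => ∫ ω in E, ‖φ (ev i) * g i ω‖ ∂μ := by
    apply Summable.of_nonneg_of_le (f := fun i => |φ (ev i)|)
    · intro i
      exact integral_nonneg fun ω => norm_nonneg _
    · intro i
      have h2 : ‖∫ ω in E, ‖φ (ev i) * g i ω‖ ∂μ‖ ≤ |φ (ev i)| * (μ.restrict E).real univ := by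
        apply norm_integral_le_of_norm_le_const
        apply Filter.Eventually.of_forall
        intro ω
        rw [norm_norm, Real.norm_eq_abs, abs_mul]
        calc |φ (ev i)| * |g i ω| ≤ |φ (ev i)| * 1 :=
              mul_le_mul_of_nonneg_left (hg1 i ω) (abs_nonneg _)
          _ = |φ (ev i)| := mul_one _
      have h3 := (abs_le.1 h2).2
      refine h3.trans ?_
      rw [measureReal_restrict_apply_univ]
      calc |φ (ev i)| * μ.real E ≤ |φ (ev i)| * 1 :=
            mul_le_mul_of_nonneg_left measureReal_le_one (abs_nonneg _)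
        _ = |φ (ev i)| := mul_one _
    · exact summable_abs φ
  rw [← integral_tsum_of_summable_integral_norm hint h1]
  congr 1
  funext i
  rw [integral_const_mul]
  rfl

end abstract

/-! ### Coordinates -/

/-- coordinate functions -/
noncomputable def ak (k : Kx) (z : Kx → Bool) : ℝ := if z k = true then 1 else 0

lemma measurable_ak (k : Kx) : Measurable (ak k) := by
  unfold ak
  apply Measurable.ite _ measurable_const measurable_const
  have h : MeasurableSet ((fun z : Kx → Bool => z k) ⁻¹' {true}) :=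
    measurable_pi_apply k (measurableSet_singleton true)
  exact h

lemma ak_abs (k : Kx) (z : Kx → Bool) : |ak k z| ≤ 1 := by
  unfold ak; split_ifs <;> simp

lemma ak_sq (k : Kx) (z : Kx → Bool) : ak k z * ak k z = ak k z := by
  unfold ak; split_ifs <;> simp

lemma int_ak (k : Kx) : ∫ z, ak k z ∂(MI Kx) = 1 / 2 := by
  have e : ak k = Set.indicator (Set.pi (({k} : Finset Kx) : Set Kx) fun _ => {true})
      (fun _ => (1 : ℝ)) := by
    funext z
    unfold ak
    by_cases h : z k = true
    · rw [if_pos h, Set.indicator_of_mem]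
      intro i hi
      have : i = k := by simpa using hi
      subst this
      exact h
    · rw [if_neg h, Set.indicator_of_notMem]
      intro h2
      exact h (h2 k (by simp))
  rw [e, integral_indicator_const _ (MeasurableSet.pi (Finset.countable_toSet _)
    fun _ _ => measurableSet_singleton _), smul_eq_mul, mul_one, measureReal_def]
  unfold MI
  rw [infinitePi_pi _ (fun i _ => measurableSet_singleton _), Finset.prod_singleton, ber_true]
  simp [hf]

lemma int_ak2 {k l : Kx} (hkl : k ≠ l) : ∫ z, ak k z * ak l z ∂(MI Kx) = 1 / 4 := by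
  classical
  have e : (fun z => ak k z * ak l z) =
      Set.indicator (Set.pi (({k, l} : Finset Kx) : Set Kx) fun _ => {true})
      (fun _ => (1 : ℝ)) := by
    funext z
    unfold ak
    by_cases h : z k = true
    · by_cases h' : z l = true
      · rw [if_pos h, if_pos h', Set.indicator_of_mem]
        · simp
        · intro i hi
          have : i = k ∨ i = l := by simpa using hi
          rcases this with rfl | rfl
          · exact h
          · exact h'
      · rw [if_neg h', Set.indicator_of_notMem]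
        · simp
        · intro h2
          exact h' (h2 l (by simp))
    · rw [if_neg h, Set.indicator_of_notMem]
      · simp
      · intro h2
        exact h (h2 k (by simp))
  rw [e, integral_indicator_const _ (MeasurableSet.pi (Finset.countable_toSet _)
    fun _ _ => measurableSet_singleton _), smul_eq_mul, mul_one, measureReal_def]
  unfold MI
  rw [infinitePi_pi _ (fun i _ => measurableSet_singleton _), Finset.prod_pair hkl, ber_true,
    ENNReal.toReal_mul]
  simp [hf]
  norm_num

/-- first index -/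
abbrev ia (i : ℕ) : Kx := Sum.inl (Sum.inl i)

/-- second index -/
abbrev ib (i : ℕ) : Kx := Sum.inl (Sum.inr i)

/-- the increments on the product -/
noncomputable def gz (i : ℕ) (z : Kx → Bool) : ℝ := ak (ia i) z - ak (ib i) z

lemma measurable_gz (i : ℕ) : Measurable (gz i) := (measurable_ak _).sub (measurable_ak _)

lemma gz_abs (i : ℕ) (z : Kx → Bool) : |gz i z| ≤ 1 := by
  unfold gz ak; split_ifs <;> simp

lemma int_prod (k l : Kx) : Integrable (fun z => ak k z * ak l z) (MI Kx) := by
  apply integrable_bdd ((measurable_ak k).mul (measurable_ak l)) (C := 1)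
  intro z
  rw [Pi.mul_apply, abs_mul]
  exact mul_le_one₀ (ak_abs k z) (abs_nonneg _) (ak_abs l z)

lemma int_ak_gz (k : Kx) (j : ℕ) : ∫ z, ak k z * gz j z ∂(MI Kx) =
    ∫ z, ak k z * ak (ia j) z ∂(MI Kx) - ∫ z, ak k z * ak (ib j) z ∂(MI Kx) := by
  rw [← integral_sub (int_prod _ _) (int_prod _ _)]
  congr 1
  funext z
  unfold gz
  ring

lemma int_gz_gz (i j : ℕ) : ∫ z, gz i z * gz j z ∂(MI Kx) =
    ∫ z, ak (ia i) z * gz j z ∂(MI Kx) - ∫ z, ak (ib i) z * gz j z ∂(MI Kx) := by
  have h : ∀ k, Integrable (fun z => ak k z * gz j z) (MI Kx) := by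
    intro k
    apply integrable_bdd ((measurable_ak k).mul (measurable_gz j)) (C := 1)
    intro z
    rw [Pi.mul_apply, abs_mul]
    exact mul_le_one₀ (ak_abs k z) (abs_nonneg _) (gz_abs j z)
  rw [← integral_sub (h _) (h _)]
  congr 1
  funext z
  unfold gz
  ring

lemma gz_orth {i j : ℕ} (hij : i ≠ j) : ∫ z, gz i z * gz j z ∂(MI Kx) = 0 := by
  rw [int_gz_gz, int_ak_gz, int_ak_gz, int_ak2, int_ak2, int_ak2, int_ak2]
  · norm_num
  all_goals simp [hij]

lemma gz_norm (i : ℕ) : ∫ z, gz i z * gz i z ∂(MI Kx) = 1 / 2 := by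
  rw [int_gz_gz, int_ak_gz, int_ak_gz, int_ak2 (k := ia i) (l := ib i) (by simp),
    int_ak2 (k := ib i) (l := ia i) (by simp)]
  simp only [ak_sq, int_ak]
  norm_num

lemma ak_gz_self (i : ℕ) : ∫ z, ak (ia i) z * gz i z ∂(MI Kx) = 1 / 4 := by
  rw [int_ak_gz, int_ak2 (k := ia i) (l := ib i) (by simp)]
  simp only [ak_sq, int_ak]
  norm_num

lemma ak_gz_ne {i j : ℕ} (hij : i ≠ j) : ∫ z, ak (ia i) z * gz j z ∂(MI Kx) = 0 := by
  rw [int_ak_gz, int_ak2, int_ak2]
  · norm_num
  all_goals simp [hij]

end Pool.Agent.Helper59.Pettis
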