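import Pool.Agent.Helper59.Pettis.Topo

/-!
The quasi-Radon space on a nonmeasurable subset of `κ → Bool` of full outer measure.
-/

open MeasureTheory Measure Set Filter ProbabilityTheory
open scoped ENNReal Topology

namespace Pool.Agent.Helper59.Pettis

variable {κ : Type}

/-- the underlying space -/
def Om (Y : Set (κ → Bool)) : Type := NullMeasurableSpace Y (subM (MI κ) Y)

/-- the projection to the product -/
def pr (Y : Set (κ → Bool)) (y : Om Y) : κ → Bool := Subtype.val (p := (· ∈ Y)) y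

instance (Y : Set (κ → Bool)) : TopologicalSpace (Om Y) :=
  TopologicalSpace.induced (pr Y) inferInstance

instance (Y : Set (κ → Bool)) : MeasurableSpace (Om Y) :=
  inferInstanceAs (MeasurableSpace (NullMeasurableSpace Y (subM (MI κ) Y)))

/-- the completed subspace measure -/
noncomputable def muO (Y : Set (κ → Bool)) : Measure (Om Y) := (subM (MI κ) Y).completion

variable {Y : Set (κ → Bool)}

lemma pr_mem (y : Om Y) : pr Y y ∈ Y := Subtype.property (p := (· ∈ Y)) y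

lemma muO_apply (E : Set (Om Y)) : muO Y E = MI κ (pr Y '' E) := by
  have h : muO Y E = subM (MI κ) Y E := rfl
  rw [h, subM_apply]
  rfl

lemma meas_iff (E : Set (Om Y)) :
    MeasurableSet E ↔ NullMeasurableSet (α := Y) E (subM (MI κ) Y) := Iff.rfl

lemma measurable_pr : Measurable (pr Y) := by
  intro T hT
  rw [meas_iff]
  exact (measurable_subtype_coe hT).nullMeasurableSet

lemma muO_null {E : Set (Om Y)} (h : MI κ (pr Y '' E) = 0) : MeasurableSet E := by
  rw [meas_iff]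
  apply NullMeasurableSet.of_null
  have h1 : subM (MI κ) Y E = muO Y E := rfl
  rw [h1, muO_apply, h]

lemma image_pre (T : Set (κ → Bool)) : pr Y '' (pr Y ⁻¹' T) = T ∩ Y := by
  ext z
  constructor
  · rintro ⟨y, hy, rfl⟩; exact ⟨hy, pr_mem y⟩
  · rintro ⟨h1, h2⟩; exact ⟨(⟨z, h2⟩ : Y), h1, rfl⟩

lemma muO_pre (hY : MI κ Y = 1) {T : Set (κ → Bool)} (hT : MeasurableSet T) :
    muO Y (pr Y ⁻¹' T) = MI κ T := by
  rw [muO_apply, image_pre]
  exact inter_full hY hT

lemma muO_map (hY : MI κ Y = 1) : (muO Y).map (pr Y) = MI κ := by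
  ext T hT
  rw [Measure.map_apply measurable_pr hT, muO_pre hY hT]

lemma muO_prob (hY : MI κ Y = 1) : IsProbabilityMeasure (muO Y) := by
  constructor
  rw [muO_apply, Set.image_univ]
  have : Set.range (pr Y) = Y := Subtype.range_coe
  rw [this, hY]

lemma muO_complete : (muO Y).IsComplete :=
  completion.isComplete (subM (MI κ) Y)

lemma muO_opens : OpensMeasurableSpace (Om Y) := by
  constructor
  apply MeasurableSpace.generateFrom_le
  intro U hU
  have hU' : IsOpen U := hU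
  obtain ⟨V, hV, rfl⟩ := isOpen_induced_iff.1 hU'
  set 𝒞 : Set (Set (κ → Bool)) := {C | (∃ F t, C = cyl F t) ∧ C ⊆ V} with h𝒞
  have hVC : V = ⋃₀ 𝒞 := by
    apply Set.Subset.antisymm
    · intro z hz
      obtain ⟨F, hF⟩ := exists_cyl_subset hV hz
      exact ⟨cyl F z, ⟨⟨F, z, rfl⟩, hF⟩, fun i _ => rfl⟩
    · exact Set.sUnion_subset fun C hC => hC.2
  obtain ⟨𝒟, h1, h2, h3⟩ := countable_exhaust 𝒞 (fun C hC => hC.1)
  have e : pr Y ⁻¹' V = pr Y ⁻¹' (⋃₀ 𝒟) ∪ pr Y ⁻¹' (V \ ⋃₀ 𝒟) := by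
    rw [← Set.preimage_union, Set.union_sdiff_self, Set.union_eq_self_of_subset_left]
    rw [hVC]
    exact Set.sUnion_subset_sUnion h1
  rw [e]
  apply MeasurableSet.union
  · apply measurable_pr
    apply MeasurableSet.sUnion h2
    intro C hC
    obtain ⟨F, t, rfl⟩ := (h1 hC).1
    exact measurable_cyl F t
  · apply muO_null
    rw [image_pre]
    apply measure_mono_null Set.inter_subset_left
    rw [← hVC] at h3
    exact h3

lemma muO_inner (hY : MI κ Y = 1) : (muO Y).InnerRegularWRT IsClosed MeasurableSet := by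
  intro E hE r hr
  rw [meas_iff] at hE
  obtain ⟨E', h1, h2, h3⟩ := hE.exists_measurable_subset_ae_eq
  obtain ⟨T, hT, rfl⟩ := h2
  have h4 : muO Y E = muO Y (pr Y ⁻¹' T) := by
    have h5 : subM (MI κ) Y E = subM (MI κ) Y (Subtype.val ⁻¹' T) := (measure_congr h3).symm
    exact h5
  rw [h4, muO_pre hY hT] at hr
  obtain ⟨K, hK1, hK2, hK3, hK4⟩ := inner_closed hT hr
  refine ⟨pr Y ⁻¹' K, ?_, ?_, ?_⟩
  · intro y hy
    exact h1 (hK1 hy)
  · exact hK2.preimage continuous_induced_dom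
  · rw [muO_pre hY hK3]
    exact hK4

lemma muO_tau (hY : MI κ Y = 1) (𝒰 : Set (Set (Om Y))) (hU : ∀ U ∈ 𝒰, IsOpen U)
    (hdir : DirectedOn (· ⊆ ·) 𝒰) : muO Y (⋃₀ 𝒰) = ⨆ U ∈ 𝒰, muO Y U := by
  apply le_antisymm
  · set 𝒞 : Set (Set (κ → Bool)) :=
      {C | (∃ F t, C = cyl F t) ∧ ∃ U ∈ 𝒰, pr Y ⁻¹' C ⊆ U} with h𝒞
    obtain ⟨𝒟, h1, h2, h3⟩ := countable_exhaust 𝒞 (fun C hC => hC.1)
    have hsub : ⋃₀ 𝒰 ⊆ pr Y ⁻¹' (⋃₀ 𝒞) := by
      rintro y ⟨U, hUm, hy⟩
      obtain ⟨V, hV, hVU⟩ := isOpen_induced_iff.1 (hU U hUm)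
      have hy' : pr Y y ∈ V := by
        rw [← hVU] at hy; exact hy
      obtain ⟨F, hF⟩ := exists_cyl_subset hV hy'
      refine ⟨cyl F (pr Y y), ⟨⟨F, _, rfl⟩, U, hUm, ?_⟩, fun i _ => rfl⟩
      rw [← hVU]
      exact Set.preimage_mono hF
    have hDm : MeasurableSet (⋃₀ 𝒟) := by
      apply MeasurableSet.sUnion h2
      intro C hC
      obtain ⟨F, t, rfl⟩ := (h1 hC).1
      exact measurable_cyl F t
    have hle : muO Y (⋃₀ 𝒰) ≤ muO Y (pr Y ⁻¹' (⋃₀ 𝒟)) := by
      have h4 : ⋃₀ 𝒰 ⊆ pr Y ⁻¹' (⋃₀ 𝒟) ∪ pr Y ⁻¹' (⋃₀ 𝒞 \ ⋃₀ 𝒟) := by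
        refine hsub.trans ?_
        rw [← Set.preimage_union, Set.union_sdiff_self]
        exact Set.preimage_mono Set.subset_union_right
      refine (measure_mono h4).trans ((measure_union_le _ _).trans ?_)
      have h5 : muO Y (pr Y ⁻¹' (⋃₀ 𝒞 \ ⋃₀ 𝒟)) = 0 := by
        rw [muO_apply, image_pre]
        exact measure_mono_null Set.inter_subset_left h3
      rw [h5, add_zero]
    refine hle.trans ?_
    rcases 𝒟.eq_empty_or_nonempty with hemp | hne
    · rw [hemp]; simp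
    · obtain ⟨g, hg⟩ := h2.exists_eq_range hne
      have h6 : pr Y ⁻¹' (⋃₀ 𝒟) = ⋃ n, pr Y ⁻¹' (g n) := by
        rw [hg, Set.sUnion_range, Set.preimage_iUnion]
      rw [h6, measure_iUnion_eq_iSup_accumulate]
      apply iSup_le
      intro n
      have h7 : ∃ U ∈ 𝒰, accumulate (fun n => pr Y ⁻¹' (g n)) n ⊆ U := by
        induction n with
        | zero =>
          obtain ⟨_, U, hU1, hU2⟩ := h1 (show g 0 ∈ 𝒟 by rw [hg]; exact ⟨0, rfl⟩)
          refine ⟨U, hU1, ?_⟩
          intro y hy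
          rw [Set.mem_accumulate] at hy
          obtain ⟨m, hm, hy⟩ := hy
          have : m = 0 := by omega
          subst this
          exact hU2 hy
        | succ n ih =>
          obtain ⟨U, hU1, hU2⟩ := ih
          obtain ⟨_, U', hU3, hU4⟩ := h1 (show g (n + 1) ∈ 𝒟 by rw [hg]; exact ⟨n + 1, rfl⟩)
          obtain ⟨U'', h8, h9, h10⟩ := hdir U hU1 U' hU3
          refine ⟨U'', h8, ?_⟩
          intro y hy
          rw [Set.mem_accumulate] at hy
          obtain ⟨m, hm, hy⟩ := hy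
          rcases hm.lt_or_eq with hm | rfl
          · apply h9
            apply hU2
            rw [Set.mem_accumulate]
            exact ⟨m, by omega, hy⟩
          · exact h10 (hU4 hy)
      obtain ⟨U, hU1, hU2⟩ := h7
      exact (measure_mono hU2).trans (le_iSup₂_of_le U hU1 le_rfl)
  · apply iSup₂_le
    intro U hUm
    exact measure_mono (Set.subset_sUnion_of_mem hUm)

end Pool.Agent.Helper59.Pettis
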