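import Pool.Agent.Helper59.Pettis.Ops
import Pool.Agent.Helper59.Pettis.Sub

/-!
Topological properties of product measures on `κ → Bool` and of their restrictions to
nonmeasurable subspaces of full outer measure.
-/

open MeasureTheory Measure Set Filter ProbabilityTheory
open scoped ENNReal Topology

namespace Pool.Agent.Helper59.Pettis

/-- fair product measure -/
noncomputable def MI (κ : Type*) : Measure (κ → Bool) := infinitePi (fun _ : κ => ber hf)

instance (κ : Type*) : IsProbabilityMeasure (MI κ) := by unfold MI; infer_instance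

variable {κ : Type*}

/-- basic clopen sets -/
def cyl (F : Finset κ) (t : κ → Bool) : Set (κ → Bool) := {z | ∀ i ∈ F, z i = t i}

lemma cyl_eq (F : Finset κ) (t : κ → Bool) :
    cyl F t = Set.pi (F : Set κ) (fun i => {t i}) := by
  ext z
  constructor
  · intro h i hi; exact h i hi
  · intro h i hi; exact h i hi

lemma measurable_cyl (F : Finset κ) (t : κ → Bool) : MeasurableSet (cyl F t) := by
  rw [cyl_eq]
  exact MeasurableSet.pi F.countable_toSet (fun i _ => measurableSet_singleton _)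

lemma MI_cyl_ne (F : Finset κ) (t : κ → Bool) : MI κ (cyl F t) ≠ 0 := by
  unfold MI
  rw [cyl_eq, infinitePi_pi _ (fun i _ => measurableSet_singleton _), Finset.prod_ne_zero_iff]
  intro i _
  cases t i
  · rw [ber_false]; simp [hf]; norm_num
  · rw [ber_true]; simp [hf]

open Classical in
/-- Forget the coordinates outside `J`. -/
noncomputable def forget (J : Set κ) (z : κ → Bool) (i : κ) : Bool := if i ∈ J then z i else false

lemma measurable_forget (J : Set κ) :
    @Measurable _ _ (⨆ i ∈ J, MeasurableSpace.comap (fun z : κ → Bool => z i) inferInstance) _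
      (forget J) := by
  rw [@measurable_pi_iff]
  intro i
  unfold forget
  by_cases hi : i ∈ J
  · simp only [hi, if_true]
    have h1 : @Measurable _ _ (MeasurableSpace.comap (fun z : κ → Bool => z i) inferInstance) _
        (fun z : κ → Bool => z i) := comap_measurable _
    refine h1.mono ?_ le_rfl
    exact le_iSup₂_of_le i hi le_rfl
  · simp only [hi, if_false]
    exact measurable_const

/-- Sets depending on disjoint sets of coordinates are independent. -/
lemma indep_coord {J K : Set κ} (hJK : Disjoint J K) {A B : Set (κ → Bool)}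
    (hA : MeasurableSet A) (hB : MeasurableSet B)
    (hA' : forget J ⁻¹' A = A) (hB' : forget K ⁻¹' B = B) :
    MI κ (A ∩ B) = MI κ A * MI κ B := by
  have h1 := iIndepFun_infinitePi (P := fun _ : κ => ber hf) (X := fun _ : κ => (id : Bool → Bool))
      (fun _ => measurable_id)
  have h2 := h1.iIndep
  have h3 := indep_iSup_of_disjoint (fun i => (measurable_pi_apply i).comap_le) h2 hJK
  rw [Indep_iff] at h3
  apply h3
  · rw [← hA']; exact measurable_forget J hA
  · rw [← hB']; exact measurable_forget K hB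

lemma forget_cyl {J : Set κ} (F : Finset κ) (hF : ∀ i ∈ F, i ∈ J) (t : κ → Bool) :
    forget J ⁻¹' (cyl F t) = cyl F t := by
  ext z
  constructor
  · intro h i hi
    have := h i hi
    unfold forget at this
    rwa [if_pos (hF i hi)] at this
  · intro h i hi
    show forget J z i = t i
    unfold forget
    rw [if_pos (hF i hi)]
    exact h i hi

/-- A measurable set depends on countably many coordinates. -/
lemma exists_forget {A : Set (κ → Bool)} (hA : MeasurableSet A) :
    ∃ J : Set κ, J.Countable ∧ forget J ⁻¹' A = A := by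
  obtain ⟨J, t, hJ, rfl⟩ := hA.eq_preimage_restrict_countable
  refine ⟨J, hJ, ?_⟩
  ext z
  simp only [Set.mem_preimage]
  have : J.domRestrict (forget J z) = J.domRestrict z := by
    funext i
    show forget J z i = z i
    unfold forget
    rw [if_pos i.2]
  rw [this]

/-- Countable exhaustion of unions of basic sets, up to a null set. -/
lemma countable_exhaust (𝒞 : Set (Set (κ → Bool))) (h𝒞 : ∀ C ∈ 𝒞, ∃ F t, C = cyl F t) :
    ∃ 𝒟 ⊆ 𝒞, 𝒟.Countable ∧ MI κ (⋃₀ 𝒞 \ ⋃₀ 𝒟) = 0 := by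
  classical
  set V : Set ℝ≥0∞ := {r | ∃ 𝒟 ⊆ 𝒞, 𝒟.Countable ∧ r = MI κ (⋃₀ 𝒟)} with hV
  have hVn : V.Nonempty := ⟨_, ∅, Set.empty_subset _, Set.countable_empty, rfl⟩
  obtain ⟨u, hu1, hu2, hu3⟩ := exists_seq_tendsto_sSup hVn (OrderTop.bddAbove V)
  choose D hD1 hD2 hD3 using hu3
  set 𝒟 := ⋃ n, D n with h𝒟
  have h𝒟1 : 𝒟 ⊆ 𝒞 := Set.iUnion_subset hD1
  have h𝒟2 : 𝒟.Countable := Set.countable_iUnion hD2
  have hsup : ∀ r ∈ V, r ≤ MI κ (⋃₀ 𝒟) := by
    intro r hr
    refine (le_sSup hr).trans ?_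
    apply le_of_tendsto' hu2
    intro n
    rw [hD3 n]
    exact measure_mono (Set.sUnion_subset_sUnion (Set.subset_iUnion D n))
  have h𝒟m : MeasurableSet (⋃₀ 𝒟) := by
    apply MeasurableSet.sUnion h𝒟2
    intro C hC
    obtain ⟨F, t, rfl⟩ := h𝒞 C (h𝒟1 hC)
    exact measurable_cyl F t
  have hnull : ∀ C ∈ 𝒞, MI κ (C \ ⋃₀ 𝒟) = 0 := by
    intro C hC
    have h1 : MI κ (⋃₀ 𝒟 ∪ C) ≤ MI κ (⋃₀ 𝒟) := by
      apply hsup
      refine ⟨insert C 𝒟, Set.insert_subset hC h𝒟1, h𝒟2.insert C, ?_⟩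
      rw [Set.sUnion_insert, Set.union_comm]
    have h2 : MI κ (⋃₀ 𝒟 ∪ C) = MI κ (⋃₀ 𝒟) + MI κ (C \ ⋃₀ 𝒟) := by
      rw [← measure_union' disjoint_sdiff_right h𝒟m, Set.union_sdiff_self]
    rw [h2] at h1
    have h3 : MI κ (⋃₀ 𝒟) + MI κ (C \ ⋃₀ 𝒟) ≤ MI κ (⋃₀ 𝒟) + 0 := by rw [add_zero]; exact h1
    have h4 := (ENNReal.add_le_add_iff_left (measure_ne_top _ _)).1 h3
    exact le_antisymm h4 zero_le
  obtain ⟨J, hJ, hJ2⟩ := exists_forget h𝒟m
  refine ⟨𝒟, h𝒟1, h𝒟2, ?_⟩
  have hcJ : Countable J := hJ.to_subtype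
  let cJ : ((F : Finset J) × (F → Bool)) → Set (κ → Bool) := fun p =>
    {z | ∀ i : p.1, z (i : J) = p.2 i}
  have hN : MI κ (⋃ p ∈ {p : (F : Finset J) × (F → Bool) | MI κ (cJ p \ ⋃₀ 𝒟) = 0},
      (cJ p \ ⋃₀ 𝒟)) = 0 := by
    rw [measure_biUnion_null_iff (Set.to_countable _)]
    intro p hp
    exact hp
  refine measure_mono_null ?_ hN
  rintro z ⟨⟨C, hC, hz⟩, hz2⟩
  obtain ⟨F, t, rfl⟩ := h𝒞 C hC
  set F1 := F.filter (· ∈ J) with hF1
  set F2 := F.filter (· ∉ J) with hF2
  have hsplit : cyl F t \ ⋃₀ 𝒟 = (cyl F1 t \ ⋃₀ 𝒟) ∩ cyl F2 t := by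
    ext w
    constructor
    · rintro ⟨h1, h2⟩
      exact ⟨⟨fun i hi => h1 i (Finset.mem_filter.1 hi).1, h2⟩,
        fun i hi => h1 i (Finset.mem_filter.1 hi).1⟩
    · rintro ⟨⟨h1, h2⟩, h3⟩
      refine ⟨fun i hi => ?_, h2⟩
      by_cases hiJ : i ∈ J
      · exact h1 i (Finset.mem_filter.2 ⟨hi, hiJ⟩)
      · exact h3 i (Finset.mem_filter.2 ⟨hi, hiJ⟩)
  have h0 := hnull _ hC
  rw [hsplit, indep_coord (J := J) (K := Jᶜ) disjoint_compl_right
    ((measurable_cyl F1 t).diff h𝒟m) (measurable_cyl F2 t) (by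
      rw [Set.preimage_sdiff, hJ2, forget_cyl F1 (fun i hi => (Finset.mem_filter.1 hi).2)])
    (forget_cyl F2 (fun i hi => (Finset.mem_filter.1 hi).2) t)] at h0
  have h1 : MI κ (cyl F1 t \ ⋃₀ 𝒟) = 0 := by
    rcases mul_eq_zero.1 h0 with h | h
    · exact h
    · exact absurd h (MI_cyl_ne F2 t)
  let p : (F : Finset J) × (F → Bool) := ⟨F1.subtype (· ∈ J), fun i => t (i : J)⟩
  have hp : cJ p = cyl F1 t := by
    ext w
    constructor
    · intro h i hi
      have hiJ := (Finset.mem_filter.1 hi).2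
      exact h ⟨⟨i, hiJ⟩, Finset.mem_subtype.2 hi⟩
    · intro h i
      exact h _ (by
        have := i.2
        rwa [Finset.mem_subtype] at this)
  rw [Set.mem_iUnion₂]
  refine ⟨p, ?_, ?_, hz2⟩
  · show MI κ (cJ p \ ⋃₀ 𝒟) = 0
    rw [hp]; exact h1
  · rw [hp]
    exact fun i hi => hz i (Finset.mem_filter.1 hi).1

lemma exists_cyl_subset {V : Set (κ → Bool)} (hV : IsOpen V) {z : κ → Bool} (hz : z ∈ V) :
    ∃ F : Finset κ, cyl F z ⊆ V := by
  rw [isOpen_pi_iff] at hV
  obtain ⟨F, u, h1, h2⟩ := hV z hz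
  refine ⟨F, fun w hw => h2 ?_⟩
  intro i hi
  rw [hw i hi]
  exact (h1 i hi).2

/-- Inner regularity on the product, for closed sets. -/
lemma inner_closed {T : Set (κ → Bool)} (hT : MeasurableSet T) {r : ℝ≥0∞} (hr : r < MI κ T) :
    ∃ K ⊆ T, IsClosed K ∧ MeasurableSet K ∧ r < MI κ K := by
  obtain ⟨J, hJ, hJ2⟩ := exists_forget hT
  have hcJ : Countable J := hJ.to_subtype
  classical
  let ext : (J → Bool) → (κ → Bool) := fun y i => if h : i ∈ J then y ⟨i, h⟩ else false
  have hext : Measurable ext := by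
    apply measurable_pi_lambda
    intro i
    by_cases h : i ∈ J
    · simp only [ext, h, dif_pos]; exact measurable_pi_apply _
    · simp only [ext, h, dif_neg, not_false_eq_true]; exact measurable_const
  have hfe : ∀ z, ext (J.domRestrict z) = forget J z := by
    intro z; funext i
    simp only [ext, forget]
    by_cases h : i ∈ J <;> simp [h]
  have hrm : Measurable (J.domRestrict : (κ → Bool) → (J → Bool)) := by fun_prop
  have hmap : (MI κ).map J.domRestrict = MI J := by
    unfold MI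
    exact infinitePi_map_restrict' (fun _ : κ => ber hf)
  have hTJ : MI κ T = MI J (ext ⁻¹' T) := by
    rw [← hmap, Measure.map_apply hrm (hext hT), ← Set.preimage_comp]
    have : ext ∘ J.domRestrict = forget J := by
      funext z; exact hfe z
    rw [this, hJ2]
  rw [hTJ] at hr
  obtain ⟨K, hK1, hK2, hK3⟩ := (Measure.WeaklyRegular.innerRegular_measurable (μ := MI J))
    ⟨hext hT, measure_ne_top _ _⟩ r hr
  have hrc : Continuous (J.domRestrict : (κ → Bool) → (J → Bool)) := by
    apply continuous_pi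
    intro i
    exact continuous_apply (i : κ)
  refine ⟨J.domRestrict ⁻¹' K, ?_, hK2.preimage hrc, hrm hK2.measurableSet, ?_⟩
  · intro z hz
    have h1 : ext (J.domRestrict z) ∈ T := hK1 hz
    rw [hfe] at h1
    rw [← hJ2]
    exact h1
  · rw [← Measure.map_apply hrm hK2.measurableSet, hmap]
    exact hK3

end Pool.Agent.Helper59.Pettis
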