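import Pool.Agent.Helper59.Pettis.FA

/-!
Zero-one law for arbitrary tail sets, and the frequently statements for the nonmeasurable part.
-/

open MeasureTheory Measure unitInterval Set Filter ProbabilityTheory
open scoped ENNReal Topology

namespace Pool.Agent.Helper59.Pettis

/-- modification of the first coordinates -/
def modi (x : (n : ℕ) × (Fin n → Bool)) (a : ℕ → Bool) (i : ℕ) : Bool :=
  if h : i < x.1 then x.2 ⟨i, h⟩ else a i

lemma measurable_modi (x : (n : ℕ) × (Fin n → Bool)) : Measurable (modi x) := by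
  apply measurable_pi_lambda
  intro i
  unfold modi
  split_ifs with h
  · exact measurable_const
  · exact measurable_pi_apply i

lemma modi_tail (x : (n : ℕ) × (Fin n → Bool)) (a : ℕ → Bool) : ∀ i, x.1 ≤ i → a i = modi x a i := by
  intro i hi
  unfold modi
  rw [dif_neg (by omega)]

/-- Zero-one law for arbitrary (nonmeasurable) tail sets. -/
lemma zero_one (p : I) {Q : Set (ℕ → Bool)}
    (htail : ∀ (a b : ℕ → Bool) (n : ℕ), (∀ i, n ≤ i → a i = b i) → a ∈ Q → b ∈ Q)
    (hQ : ∃ᶠ a in ae (PP p), a ∈ Q) : PP p Q = 1 := by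
  set H := toMeasurable (PP p) Q with hH
  have hHm : MeasurableSet H := measurableSet_toMeasurable _ _
  have hQH : Q ⊆ H := subset_toMeasurable _ _
  set H' : Set (ℕ → Bool) := ⋂ x : (n : ℕ) × (Fin n → Bool), modi x ⁻¹' H with hH'
  have hH'm : MeasurableSet H' := MeasurableSet.iInter fun x => measurable_modi x hHm
  have hQH' : Q ⊆ H' := by
    intro a ha
    rw [hH', Set.mem_iInter]
    intro x
    exact hQH (htail a _ x.1 (modi_tail x a) ha)
  have hH'H : H' ⊆ H := by
    intro a ha
    rw [hH', Set.mem_iInter] at ha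
    have h1 := ha ⟨0, fun i => i.elim0⟩
    have e : modi ⟨0, fun i => i.elim0⟩ a = a := by
      funext i; unfold modi; rw [dif_neg (by simp)]
    rw [Set.mem_preimage, e] at h1
    exact h1
  have hmeas : PP p H' = PP p Q := by
    apply le_antisymm
    · rw [← measure_toMeasurable Q]; exact measure_mono hH'H
    · exact measure_mono hQH'
  have hinv : ∀ (a b : ℕ → Bool) (m : ℕ), (∀ i, m ≤ i → a i = b i) → a ∈ H' → b ∈ H' := by
    intro a b m hab ha
    rw [hH', Set.mem_iInter] at ha ⊢
    intro x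
    have h1 := ha ⟨max x.1 m, fun i => if h : (i : ℕ) < x.1 then x.2 ⟨i, h⟩ else b i⟩
    have e : modi ⟨max x.1 m, fun i => if h : (i : ℕ) < x.1 then x.2 ⟨i, h⟩ else b i⟩ a =
        modi x b := by
      funext i
      unfold modi
      by_cases h2 : i < x.1
      · rw [dif_pos (lt_of_lt_of_le h2 (le_max_left _ _)), dif_pos h2]
        exact dif_pos h2
      · by_cases h3 : i < m
        · rw [dif_pos (lt_of_lt_of_le h3 (le_max_right _ _)), dif_neg h2]
          exact dif_neg h2
        · rw [dif_neg (by simp; omega), dif_neg h2]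
          exact hab i (by omega)
    rw [Set.mem_preimage, e] at h1
    exact h1
  -- tail measurability
  let s : ℕ → MeasurableSpace (ℕ → Bool) := fun i =>
    MeasurableSpace.comap (fun a : ℕ → Bool => a i) inferInstance
  have htm : MeasurableSet[limsup s atTop] H' := by
    rw [limsup_eq_iInf_iSup_of_nat, MeasurableSpace.measurableSet_iInf]
    intro n
    have hψ : @Measurable _ _ (⨆ i ≥ n, s i) _ (modi ⟨n, fun _ => false⟩) := by
      rw [@measurable_pi_iff]
      intro i
      unfold modi
      by_cases hi : i < n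
      · simp only [hi, dif_pos]
        exact measurable_const
      · simp only [hi, dif_neg, not_false_eq_true]
        have h1 : @Measurable _ _ (s i) _ (fun a : ℕ → Bool => a i) :=
          comap_measurable _
        refine h1.mono ?_ le_rfl
        exact le_iSup₂_of_le i (by omega) le_rfl
    have e : H' = modi ⟨n, fun _ => false⟩ ⁻¹' H' := by
      ext a
      constructor
      · intro ha
        exact hinv a _ n (modi_tail ⟨n, fun _ => false⟩ a) ha
      · intro ha
        exact hinv _ a n (fun i hi => (modi_tail ⟨n, fun _ => false⟩ a i hi).symm) ha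
    rw [e]
    exact hψ hH'm
  have hind : iIndep s (PP p) := by
    have h1 := iIndepFun_infinitePi (P := fun _ : ℕ => ber p) (X := fun _ : ℕ => (id : Bool → Bool))
      (fun _ => measurable_id)
    exact h1.iIndep
  have h01 := measure_zero_or_one_of_measurableSet_limsup_atTop
    (fun n => (measurable_pi_apply n).comap_le) hind htm
  rcases h01 with h | h
  · exfalso
    apply hQ
    rw [hmeas] at h
    exact measure_eq_zero_iff_ae_notMem.1 h
  · rw [← hmeas]; exact h

lemma ae_PP_one : ∀ᵐ a ∂(PP 1), supp a = univ := by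
  have h1 : ∀ i : ℕ, ∀ᵐ a ∂(PP 1), a i = true := by
    intro i
    have h2 : ∀ᵐ b ∂(ber 1), b = true := by
      rw [ae_iff]
      have e : {b : Bool | ¬ b = true} = {false} := by ext b; simp
      rw [e, ber_false]
      simp
    have h3 := (measurePreserving_eval_infinitePi (fun _ : ℕ => ber 1) i)
    exact h3.quasiMeasurePreserving.ae h2
  filter_upwards [ae_all_iff.2 h1] with a ha
  ext i
  simp [supp, ha i]

namespace FA

lemma freq_it (τ : FA) (n : ℕ) : ∀ (S : Set ℕ) (c : ℝ), (it τ n).m S < c →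
    ∃ᶠ a in ae (PP (hf ^ n)), τ.m (S ∩ supp a) < c := by
  induction n with
  | zero =>
    intro S c h
    rw [pow_zero]
    apply Filter.Eventually.frequently
    filter_upwards [ae_PP_one] with a ha
    rw [ha, Set.inter_univ]
    exact h
  | succ n ih =>
    intro S c h
    rw [pow_succ']
    apply freq_and
    have h1 := (it τ n).freq_Rv (S := S) (t := c) h
    apply h1.mono
    intro a ha
    apply (ih _ _ ha).mono
    intro b hb
    rw [supp_and, ← Set.inter_assoc]
    exact hb

lemma compl_union_le (τ : FA) (S T : Set ℕ) : τ.m (S ∩ T)ᶜ ≤ τ.m Sᶜ + τ.m Tᶜ := by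
  have e : (S ∩ T)ᶜ = Sᶜ ∪ (Tᶜ \ Sᶜ) := by
    ext i; simp; tauto
  rw [e, τ.add _ _ disjoint_sdiff_right]
  have := τ.mono (S := Tᶜ \ Sᶜ) (T := Tᶜ) Set.sdiff_subset
  linarith

lemma freq_pow (τ : FA) {q : I} {c : ℝ} (h : ∃ᶠ b in ae (PP q), τ.m (supp b)ᶜ ≤ c) (k : ℕ) :
    ∃ᶠ b in ae (PP (q ^ k)), τ.m (supp b)ᶜ ≤ k * c := by
  induction k with
  | zero =>
    rw [pow_zero]
    apply Filter.Eventually.frequently
    filter_upwards [ae_PP_one] with a ha
    rw [ha, Set.compl_univ, τ.empty]
    simp
  | succ k ih =>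
    rw [pow_succ']
    apply freq_and
    apply h.mono
    intro a ha
    apply ih.mono
    intro b hb
    rw [supp_and]
    have := τ.compl_union_le (supp a) (supp b)
    push_cast
    linarith

lemma freq_beta (τ : FA) (hτ : ∀ ε > 0, ∃ n, 2 ^ n * (it τ n).m univ < ε) {β : I}
    (hβ : 0 < (β : ℝ)) {ε : ℝ} (hε : 0 < ε) : ∃ᶠ b in ae (PP β), τ.m (supp b)ᶜ < ε := by
  -- choice of `T`
  obtain ⟨T, hT1, hT2⟩ : ∃ T : ℕ, 1 ≤ T ∧ Real.exp (-T) ≤ β := by
    obtain ⟨T, hT⟩ := exists_nat_ge (-Real.log β)
    refine ⟨T + 1, by omega, ?_⟩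
    rw [← Real.le_log_iff_exp_le hβ]
    push_cast
    linarith
  have hTpos : (0 : ℝ) < T := by exact_mod_cast hT1
  obtain ⟨n, hn⟩ := hτ (ε / (2 * T)) (by positivity)
  set y : ℝ := 1 / 2 ^ n with hy
  have hypos : 0 < y := by positivity
  have h2n : (0 : ℝ) < 2 ^ n := by positivity
  have h1 : (it τ n).m univ < y * (ε / (2 * T)) := by
    rw [hy, one_div, ← div_eq_inv_mul, lt_div_iff₀ h2n]
    linarith
  have h2 := freq_it τ n univ _ h1
  -- complement
  have h3 : ∃ᶠ b in ae (PP (σ (hf ^ n))), τ.m (supp b)ᶜ ≤ y * (ε / (2 * T)) := by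
    apply freq_not
    apply h2.mono
    intro a ha
    rw [supp_not, compl_compl]
    rw [Set.univ_inter] at ha
    exact ha.le
  have h4 := freq_pow τ h3 (2 ^ n * T)
  set q : I := (σ (hf ^ n)) ^ (2 ^ n * T) with hq
  have hbound : ((2 ^ n * T : ℕ) : ℝ) * (y * (ε / (2 * T))) = ε / 2 := by
    rw [hy]; push_cast; field_simp
  rw [hbound] at h4
  have hqle : (q : ℝ) ≤ Real.exp (-T) := by
    have e1 : (q : ℝ) = (1 - y) ^ (2 ^ n * T) := by
      rw [hq]
      have e2 : (((σ (hf ^ n)) ^ (2 ^ n * T) : I) : ℝ) = ((σ (hf ^ n) : I) : ℝ) ^ (2 ^ n * T) := by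
        simp
      rw [e2, coe_symm_eq]
      have e3 : ((hf ^ n : I) : ℝ) = y := by
        have : ((hf ^ n : I) : ℝ) = (hf : ℝ) ^ n := by simp
        rw [this, hy]
        unfold hf
        simp
      rw [e3]
    rw [e1]
    have hy1 : y ≤ 1 := by
      rw [hy, div_le_one h2n]
      exact one_le_pow₀ (by norm_num)
    calc (1 - y) ^ (2 ^ n * T) ≤ (Real.exp (-y)) ^ (2 ^ n * T) := by
          apply pow_le_pow_left₀ (by linarith)
          have := Real.add_one_le_exp (-y)
          linarith
      _ = Real.exp (-T) := by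
          rw [← Real.exp_nat_mul]
          congr 1
          rw [hy]; push_cast; field_simp
  have hq1 : (q : ℝ) < 1 := by
    apply lt_of_le_of_lt hqle
    rw [Real.exp_lt_one_iff]
    linarith
  have hqβ : (q : ℝ) ≤ β := hqle.trans hT2
  -- enlarge to `β`
  have h1q : (0 : ℝ) < 1 - q := by linarith
  let q' : I := ⟨(β - q) / (1 - q), by
    apply div_nonneg <;> linarith, by
    rw [div_le_one h1q]; linarith [β.2.2]⟩
  have hβ' : σ (σ q * σ q') = β := by
    apply Subtype.ext
    rw [coe_symm_eq]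
    have e1 : ((σ q * σ q' : I) : ℝ) = (1 - q) * (1 - (β - q) / (1 - q)) := by
      simp [q']
    rw [e1]
    field_simp
    ring
  rw [← hβ']
  apply freq_or
  apply h4.mono
  intro a ha
  apply Filter.Eventually.frequently
  refine Filter.Eventually.of_forall fun b => ?_
  rw [supp_or]
  have h5 : τ.m (supp a ∪ supp b)ᶜ ≤ τ.m (supp a)ᶜ :=
    τ.mono (Set.compl_subset_compl.2 Set.subset_union_left)
  linarith

end FA

end Pool.Agent.Helper59.Pettis
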